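import Pool.Agent.Lib.FP.Root

/-! Pivotal edges of a long finite cluster. -/

open Set Relation

namespace Pool.Agent.Lib.FP

open Pool.Agent.TPC

variable {d : ℕ} {σ : Set (Ed d)} {a b : Zd d} {e : Ed d} {S D : Set (Zd d)}

def W (a b : Zd d) : Set (Set (Ed d)) := {σ | (cl σ a).Finite ∧ b ∈ cl σ a}

def J (a b : Zd d) : Set (Set (Ed d)) := {σ | (cl σ a).Finite ∧ (cl σ b).Finite ∧ b ∉ cl σ a ∧
  (touch (cl σ a) ∩ touch (cl σ b)).Nonempty}

def Sep (o : Fin d) (S D : Set (Zd d)) : Prop :=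
  (∃ k, (∀ s ∈ S, s o ≤ k) ∧ ∀ z ∈ D, k < z o) ∧ (touch S ∩ touch D).Subsingleton

/-- the clusters of `a` and `b` are finite, different and joined by `e` -/
def Je (a b : Zd d) (e : Ed d) : Set (Set (Ed d)) := {σ | (cl σ a).Finite ∧ (cl σ b).Finite ∧
  b ∉ cl σ a ∧ e ∈ touch (cl σ a) ∩ touch (cl σ b)}

def Sp (o : Fin d) (a b : Zd d) : Set (Set (Ed d)) := {σ | Sep o (cl σ a) (cl σ b)}

theorem ends_both (h : Disjoint S D) (h1 : e ∈ touch S) (h2 : e ∈ touch D) :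
    ∃ s z, Ends e s z ∧ s ∈ S ∧ z ∈ D := by
  rcases h1 with h1 | h1 <;> rcases h2 with h2 | h2
  exacts [(disjoint_left.1 h h1 h2).elim, ⟨_, _, ends_self e, h1, h2⟩,
    ⟨_, _, (ends_self e).symm, h1, h2⟩, (disjoint_left.1 h h1 h2).elim]

theorem piv_W (he : e ∈ σ) (h : σ \ {e} ∈ Je a b e) : σ ∈ W a b := by
  obtain ⟨s, z, h1, hs, hz⟩ := ends_both (cl_disj h.2.2.1) h.2.2.2.1 h.2.2.2.2
  refine ⟨(h.1.union h.2.1).subset (cl_subset (Or.inl (self_mem _ _)) fun f hf u w h2 _ hu => ?_),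
    cl_trans (cl_step (cl_mono sdiff_subset _ hs) he h1) (cl_mono sdiff_subset _ (cl_symm hz))⟩
  by_cases hfe : f = e
  · exact h1.mem (hfe ▸ h2) (Or.inl hs) (Or.inr hz)
  · exact hu.imp (fun hu => cl_step hu ⟨hf, hfe⟩ h2) fun hu => cl_step hu ⟨hf, hfe⟩ h2

theorem not_both (o : Fin d) (hS : S.Finite) (hD : D.Finite) (h : Disjoint S D) (cS : Con S)
    (cD : Con D) {s z : Zd d} (hs : s ∈ S) (hz : z ∈ D) (h1 : z ∈ fill S) (h2 : s ∈ fill D) :
    False := by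
  have key : ∀ {S D : Set (Zd d)} {s w : Zd d}, Disjoint S D → Con S → s ∈ S → s ∈ fill D →
      w ∈ S → (∀ y ∈ D, y o ≤ w o) → False := by
    intro S D s w h cS hs h2 hw hm
    have h3 : w ∈ fill D := fill_comp h2 (cl_mono (ins_mono h.subset_compl_right) _ (cS s hs w hw))
    obtain ⟨y, hy, h4⟩ := exists_max_image (cl (ins Dᶜ) w) (· o) h3 ⟨w, self_mem _ _⟩
    have h5 := h4 w (self_mem _ _)
    have h6 := hd_apply (y, o) o
    have h7 := h4 _ (cl_step hy (e := (y, o)) ⟨cl_ins_sub (disjoint_left.1 h hw) Subset.rfl hy,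
      fun h => by have := hm _ h; simp at h6; omega⟩ (ends_self _))
    simp at h6; omega
  obtain ⟨w, hw, hm⟩ := exists_max_image (S ∪ D) (· o) (hS.union hD) ⟨s, Or.inl hs⟩
  rcases hw with hw | hw
  exacts [key h cS hs h2 hw fun y hy => hm y (Or.inr hy),
    key h.symm cD hz h1 hw fun y hy => hm y (Or.inl hy)]

theorem square (hd2 : 2 ≤ d) (h : e ∈ bd S) : ∃ f ∈ bd S, f ≠ e ∧ zd f.1 e.1 ≤ 1 := by
  have : Nontrivial (Fin d) := Fin.nontrivial_iff_two_le.2 hd2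
  obtain ⟨j, hj⟩ := exists_ne e.2
  have n1 : ∀ i, zd (e.1 + Pi.single i 1) e.1 ≤ 1 := fun i =>
    (zd_adj (lattice_adj_add e.1 i).symm).le
  by_cases h1 : (e.1, j) ∈ bd S
  · exact ⟨_, h1, fun h => hj (congrArg Prod.snd h), by simp [zd_self]⟩
  by_cases h2 : (hd e, j) ∈ bd S
  · exact ⟨_, h2, fun h => hj (congrArg Prod.snd h), n1 _⟩
  refine ⟨(e.1 + Pi.single j 1, e.2), ?_, fun h => single_ne_zero j ?_, n1 _⟩
  · simp only [bd, hd, mem_ofPred_eq, not_not, add_right_comm e.1 (Pi.single j 1)] at *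
    tauto
  · simpa using congrArg Prod.fst h

theorem near_card {B X : Finset (Ed d)} (h : ∀ e ∈ B, ∃ f ∈ X, zd f.1 e.1 ≤ 1) :
    B.card ≤ d * 3 ^ d * X.card := by
  classical
  have : B ⊆ X.biUnion fun f => box f.1 1 ×ˢ Finset.univ := fun e he =>
    let ⟨f, h1, h2⟩ := h e he
    Finset.mem_biUnion.2 ⟨f, h1, Finset.mem_product.2 ⟨mem_box.2 (by simpa), Finset.mem_univ _⟩⟩
  refine (Finset.card_le_card this).trans ((Finset.card_biUnion_le_card_mul _ _ (d * 3 ^ d)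
    fun f _ => by simp [card_box, mul_comm]).trans (mul_comm _ _).le)

theorem sum_inK (o : Fin d) {K X : Finset (Ed d)} (N : Finset ℤ) (hX : X ⊆ K)
    (h : ∀ f ∈ X, f.1 o ∉ N) : X.card + ∑ k ∈ N, (inK o K k).card ≤ K.card := by
  classical
  rw [← Finset.card_biUnion, ← Finset.card_union_of_disjoint]
  · exact Finset.card_le_card (Finset.union_subset hX
      (Finset.biUnion_subset.2 fun _ _ => Finset.filter_subset _ _))
  · refine Finset.disjoint_left.2 fun f hf h' => ?_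
    obtain ⟨k, hk, h1⟩ := Finset.mem_biUnion.1 h'
    exact h f hf ((Finset.mem_filter.1 h1).2.2 ▸ hk)
  · intro k _ l _ hkl
    exact Finset.disjoint_left.2 fun f h1 h2 =>
      hkl ((Finset.mem_filter.1 h1).2.2.symm.trans (Finset.mem_filter.1 h2).2.2)

theorem neck (o : Fin d) (hW : σ ∈ W a b) (h2 : e.2 = o)
    (ht : ∀ u ∈ cl σ a, u o = e.1 o → u = e.1) (ha : a o ≤ e.1 o) (hb : e.1 o < b o) :
    σ \ {e} ∈ Je a b e ∩ Sp o a b := by
  have sS : cl (σ \ {e}) a ⊆ cl σ a := cl_mono sdiff_subset _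
  have sD : cl (σ \ {e}) b ⊆ cl σ a := fun u hu => cl_trans hW.2 (cl_mono sdiff_subset _ hu)
  have uq : ∀ f : Ed d, f.2 = o → f.1 o = e.1 o → f.1 ∈ cl σ a → f = e := fun f f1 f2 f3 =>
    Prod.ext (ht _ f3 f2) (f1.trans h2.symm)
  have a1 : ∀ s ∈ cl (σ \ {e}) a, s o ≤ e.1 o := fun s hs => not_lt.1 fun h =>
    let ⟨f, f0, f1, f2, f3⟩ := cross o hs ha h; f0.2 (uq f f1 f2 (sS f3))
  have a2 : ∀ z ∈ cl (σ \ {e}) b, e.1 o < z o := fun z hz => not_le.1 fun h =>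
    let ⟨f, f0, f1, f2, f3⟩ := cross o (cl_symm hz) h hb
    f0.2 (uq f f1 f2 (sD (cl_trans hz f3)))
  have a3 : b ∉ cl (σ \ {e}) a := fun h => (a1 b h).not_gt hb
  have ex : ∀ u w, w ∈ cl σ u → w ∉ cl (σ \ {e}) u → e ∈ touch (cl (σ \ {e}) u) := by
    intro u w h3 h4
    obtain ⟨f, f0, x, y, f1, -, f2, f3⟩ := exit h3 (self_mem (σ \ {e}) u) h4
    by_cases hfe : f = e
    · exact (show Ends e x y from hfe ▸ f1).touch f2
    · exact (f3 (cl_step f2 ⟨f0, hfe⟩ f1)).elim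
  have a4 : ∀ f ∈ touch (cl (σ \ {e}) a) ∩ touch (cl (σ \ {e}) b), f = e := by
    intro f hf
    obtain ⟨s, z, f1, hs, hz⟩ := ends_both (cl_disj a3) hf.1 hf.2
    have b1 := a1 s hs
    have b2 := a2 z hz
    have b3 := hd_apply f o
    rcases f1 with ⟨rfl, rfl⟩ | ⟨rfl, rfl⟩ <;> split_ifs at b3 with b4 <;> try omega
    exact uq f b4.symm (by omega) (sS hs)
  exact ⟨⟨hW.1.subset sS, hW.1.subset sD, a3, ex a b hW.2 a3,
    ex b a (cl_symm hW.2) fun h => a3 (cl_symm h)⟩, ⟨_, a1, a2⟩,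
    fun f hf g hg => (a4 f hf).trans (a4 g hg).symm⟩

theorem struct (h3 : 3 ≤ d) (o : Fin d) (n : ℕ) (hW : σ ∈ W 0 (Pi.single o (n : ℤ))) :
    ∃ (K : Finset (Ed d)) (x : ℕ), Rooted 0 K ∧ (∀ e ∈ K, e ∉ σ) ∧ K.card = 2 * (d - 1) * n + x ∧
      (∃ G : Finset (Ed d), n ≤ G.card + x ∧ ∀ e ∈ G, e ∈ σ ∧
        σ \ {e} ∈ Je 0 (Pi.single o (n : ℤ)) e ∩ Sp o 0 (Pi.single o (n : ℤ))) ∧
      ∀ B : Finset (Ed d), (∀ e ∈ B, e ∈ σ ∧
        σ \ {e} ∈ Je 0 (Pi.single o (n : ℤ)) e \ Sp o 0 (Pi.single o (n : ℤ))) →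
        B.card ≤ d * 3 ^ d * (6 * d * (x + 1)) := by
  classical
  set b : Zd d := Pi.single o (n : ℤ) with hb
  have hd2 : 2 ≤ d := by omega
  set C := cl σ 0
  have sS : ∀ e, cl (σ \ {e}) 0 ⊆ C := fun e => cl_mono sdiff_subset _
  have sD : ∀ e, cl (σ \ {e}) b ⊆ C := fun e u hu => cl_trans hW.2 (cl_mono sdiff_subset _ hu)
  let Pv : Set (Ed d) := {e | e ∈ σ ∧ σ \ {e} ∈ Je 0 b e}
  let Pc : Set (Zd d) → Prop := fun T => T ⊆ C ∧ Con T ∧ (∃ v ∈ T, ∀ l, l ≠ o → v l = 0) ∧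
    ∀ f ∈ bd (fill T), f ∉ σ ∨ f ∈ Pv
  let Ks : Set (Ed d) := {e | e ∉ σ ∧ ∃ T, Pc T ∧ e ∈ bd (fill T)}
  have fP : Pv.Finite := (touch_finite hW.1).subset fun e he => touch_mono (sS e) he.2.2.2.2.1
  have fK : Ks.Finite := (touch_finite hW.1).subset fun e ⟨_, T, h1, h2⟩ =>
    touch_mono h1.1 (bd_fill_touch h2)
  have pv : ∀ e ∈ Pv, ∃ T, Pc T ∧ e ∈ bd (fill T) ∧ ∀ f ∈ bd (fill T), f ≠ e → f ∉ σ := by
    intro e he
    have k1 : ∀ v, ∀ f ∈ bd (fill (cl (σ \ {e}) v)), f ≠ e → f ∉ σ := fun v f hf h1 h2 =>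
      bd_fill_closed hf ⟨h2, h1⟩
    have k2 : ∀ v, ∀ f ∈ bd (fill (cl (σ \ {e}) v)), f ∉ σ ∨ f ∈ Pv := fun v f hf =>
      (eq_or_ne f e).elim (fun h => Or.inr (h ▸ he)) fun h => Or.inl (k1 v f hf h)
    obtain ⟨s, z, h1, hs, hz⟩ := ends_both (cl_disj he.2.2.2.1) he.2.2.2.2.1 he.2.2.2.2.2
    by_cases h2 : z ∈ fill (cl (σ \ {e}) 0)
    · refine ⟨_, ⟨sD e, con_cl _ _, ⟨b, self_mem _ _, fun l hl => by simp [hb, hl]⟩, k2 b⟩,
        h1.symm.bd (subset_fill _ hz) fun h => ?_, k1 b⟩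
      exact not_both o he.2.1 he.2.2.1 (cl_disj he.2.2.2.1) (con_cl _ _) (con_cl _ _) hs hz h2 h
    · exact ⟨_, ⟨sS e, con_cl _ _, ⟨0, self_mem _ _, fun _ _ => rfl⟩, k2 0⟩,
        h1.bd (subset_fill _ hs) h2, k1 0⟩
  have nr : ∀ e ∈ Pv, ∃ f ∈ fK.toFinset, zd f.1 e.1 ≤ 1 := by
    intro e he
    obtain ⟨T, h1, h2, h4⟩ := pv e he
    obtain ⟨f, f1, f2, f3⟩ := square hd2 h2
    exact ⟨f, fK.mem_toFinset.2 ⟨h4 f f1 f2, T, h1, f1⟩, f3⟩
  have hF := fill_finite hd2 hW.1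
  have hK : bd (fill C) ⊆ fK.toFinset := fun e he => by
    rw [fK.coe_toFinset]
    exact ⟨bd_fill_closed he, C, ⟨Subset.rfl, con_cl _ _, ⟨0, self_mem _ _, fun _ _ => rfl⟩,
      fun f hf => Or.inl (bd_fill_closed hf)⟩, he⟩
  have root : Rooted 0 fK.toFinset := by
    refine rooted_of hd2 o hF (con_fill (con_cl _ _) ⟨0, self_mem _ _⟩)
      (subset_fill _ (self_mem _ _)) hK (Q := fP.toFinset)
      (near_card fun e he => nr e (fP.mem_toFinset.1 he)) fun e he => ?_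
    obtain ⟨T, h1, h2⟩ : ∃ T, Pc T ∧ e ∈ bd (fill T) := by
      rcases Finset.mem_union.1 he with he | he
      · exact (fK.mem_toFinset.1 he).2
      · obtain ⟨T, h1, h2, -⟩ := pv e (fP.mem_toFinset.1 he)
        exact ⟨T, h1, h2⟩
    have sub : bd (fill T) ⊆ ↑(fK.toFinset ∪ fP.toFinset) := fun f hf => by
      rw [Finset.coe_union, fK.coe_toFinset, fP.coe_toFinset]
      exact (h1.2.2.2 f hf).imp (fun h => ⟨h, T, h1, hf⟩) id
    obtain ⟨v, hv, hv'⟩ := h1.2.2.1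
    obtain ⟨e₀, a1, a2, a3, a4⟩ := bd_line hd2 o (hW.1.subset h1.1) h1.2.1 hv h2
    exact ⟨e₀, sub a1, ReflTransGen.mono (fun _ _ h => ⟨sub h.1, sub h.2.1, h.2.2⟩) _ _ a2,
      fill_mono h1.1 a3, fun l hl => (a4 l hl).trans (hv' l hl)⟩
  set K := fK.toFinset
  let thin : ℤ → Prop := fun k => ∀ u ∈ C, ∀ v ∈ C, u o = k → v o = k → u = v
  let I : Finset ℤ := Finset.Ico 0 (n : ℤ)
  have bo : b o = n := by simp [hb]
  have cr : ∀ k ∈ I, ∃ e ∈ σ, e.2 = o ∧ e.1 o = k ∧ e.1 ∈ C := fun k hk =>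
    cross o hW.2 (Finset.mem_Ico.1 hk).1 (bo ▸ (Finset.mem_Ico.1 hk).2)
  have pl : ∀ k ∈ I, 2 * (d - 1) + (if thin k then 0 else 1) ≤ (inK o K k).card := by
    intro k hk
    split_ifs with h
    · obtain ⟨e, -, -, rfl, h1⟩ := cr k hk
      exact (plane_ge o hF hK (subset_fill _ h1)).1
    · simp only [thin, not_forall] at h
      obtain ⟨u, hu, v, hv, rfl, h1, h2⟩ := h
      exact (plane_ge o hF hK (subset_fill _ hu)).2 h3 v (subset_fill _ hv) (Ne.symm h2) h1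
  have cI : I.card = n := by simp [I]
  set fat := I.filter fun k => ¬thin k
  have c1 : 2 * (d - 1) * n + fat.card ≤ K.card := by
    have h1 := sum_inK o (K := K) (X := ∅) I (by simp) (by simp)
    have h2 := Finset.sum_le_sum pl
    rw [Finset.sum_add_distrib, Finset.sum_const, cI, smul_eq_mul, mul_comm,
      Finset.sum_ite, Finset.sum_const_zero, zero_add, Finset.sum_const, smul_eq_mul, mul_one] at h2
    simp only [Finset.card_empty, zero_add] at h1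
    exact h2.trans h1
  obtain ⟨x, hx⟩ := Nat.exists_eq_add_of_le ((Nat.le_add_right _ _).trans c1)
  have fx : fat.card ≤ x := by omega
  have nk : ∀ e ∈ σ, e.2 = o → e.1 ∈ C → e.1 o ∈ I → thin (e.1 o) →
      σ \ {e} ∈ Je 0 b e ∩ Sp o 0 b := fun e _ h1 h2 h4 h5 =>
    neck o hW h1 (fun u hu h => h5 u hu _ h2 h rfl) (Finset.mem_Ico.1 h4).1
      (bo ▸ (Finset.mem_Ico.1 h4).2)
  refine ⟨K, x, root, fun e he => (fK.mem_toFinset.1 he).1, hx, ?_, fun B hB => ?_⟩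
  · have : Nonempty (Ed d) := ⟨(0, o)⟩
    choose! g g0 g1 g2 g3 using cr
    refine ⟨(I.filter thin).image g, ?_, fun e he => ?_⟩
    · rw [Finset.card_image_of_injOn fun k hk l hl h => by
        rw [← g2 k (Finset.mem_filter.1 hk).1, ← g2 l (Finset.mem_filter.1 hl).1, h]]
      have : (I.filter thin).card + fat.card = I.card :=
        Finset.card_filter_add_card_filter_not (s := I) thin
      omega
    · obtain ⟨k, hk, rfl⟩ := Finset.mem_image.1 he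
      obtain ⟨k1, k2⟩ := Finset.mem_filter.1 hk
      exact ⟨g0 k k1, nk _ (g0 k k1) (g1 k k1) (g3 k k1) (by rwa [g2 k k1]) (by rwa [g2 k k1])⟩
  · let N := I \ (insert 0 (insert ((n : ℤ) - 1) (fat.biUnion fun k => {k - 1, k, k + 1})))
    let X := K.filter fun f => f.1 o ∉ N
    have c2 : n ≤ N.card + (2 + 3 * x) := by
      have h1 := Finset.card_biUnion_le_card_mul fat (fun k => ({k - 1, k, k + 1} : Finset ℤ)) 3
        fun _ _ => Finset.card_le_three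
      have h2 := Finset.card_le_card_sdiff_add_card (s := I)
        (t := insert 0 (insert ((n : ℤ) - 1) (fat.biUnion fun k => {k - 1, k, k + 1})))
      have h4 := Finset.card_insert_le (0 : ℤ)
        (insert ((n : ℤ) - 1) (fat.biUnion fun k => {k - 1, k, k + 1}))
      have h5 := Finset.card_insert_le ((n : ℤ) - 1) (fat.biUnion fun k => {k - 1, k, k + 1})
      simp only [N]; omega
    have c3 : X.card ≤ 6 * d * (x + 1) := by
      have h1 := sum_inK o (K := K) (X := X) N (Finset.filter_subset _ _)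
        fun f hf => (Finset.mem_filter.1 hf).2
      have h2 := Finset.card_nsmul_le_sum N (fun k => (inK o K k).card) (2 * (d - 1))
        fun k hk => (Nat.le_add_right _ _).trans (pl k (Finset.mem_sdiff.1 hk).1)
      rw [smul_eq_mul] at h2
      obtain ⟨m, rfl⟩ : ∃ m, d = m + 1 := ⟨d - 1, by omega⟩
      simp only [Nat.add_sub_cancel] at h2 hx
      nlinarith [Nat.mul_le_mul_left (2 * m) c2]
    refine (near_card (X := X) fun e he => ?_).trans (Nat.mul_le_mul_left _ c3)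
    obtain ⟨e0, e1, e2⟩ := hB e he
    obtain ⟨f, f1, f2⟩ := nr e ⟨e0, e1⟩
    refine ⟨f, Finset.mem_filter.2 ⟨f1, fun hN => e2 ?_⟩, f2⟩
    obtain ⟨s, z, h1, hs, hz⟩ := ends_both (cl_disj e1.2.2.1) e1.2.2.2.1 e1.2.2.2.2
    have m1 : e.1 ∈ C := h1.mem (ends_self e).symm (sS e hs) (sD e hz)
    have m2 : hd e ∈ C := h1.mem (ends_self e) (sS e hs) (sD e hz)
    have nc := near_coord f2 o
    simp only [N, I, Finset.mem_sdiff, Finset.mem_insert, Finset.mem_biUnion, not_or, not_exists,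
      not_and, Finset.mem_Ico, Finset.mem_singleton] at hN
    have mI : e.1 o ∈ I := Finset.mem_Ico.2 (by omega)
    have th : thin (e.1 o) := by
      by_contra h
      have := hN.2.2.2 _ (Finset.mem_filter.2 ⟨mI, h⟩)
      omega
    refine (nk e e0 ?_ m1 mI th).2
    by_contra h
    have := th _ m2 _ m1 (by rw [hd_apply, if_neg (Ne.symm h), add_zero]) rfl
    exact single_ne_zero e.2 (add_eq_left.1 this)

end Pool.Agent.Lib.FP
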