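import Pool.Agent.Lib.FP.Est3

/-! Choice of the parameters. -/

open Set MeasureTheory Filter
open scoped NNReal ENNReal

namespace Pool.Agent.Lib.FP

open Pool.Agent.TPC

theorem params {M : ℝ≥0} (hM : 1 ≤ M) (c D E : ℕ) : ∃ (r q : ℝ≥0) (h : ℕ), 0 < q ∧ q ≤ r ^ 2 ∧
    r ≤ 1 / 24 ∧ M * r ≤ 1 / 24 ∧ 2 * (M * r) ^ 2 = r / 12 ∧ 4 ≤ h ∧ 64 * c ≤ r * h ∧
    ∀ N, ∃ g : ℕ, N ≤ g ∧ 1 ≤ q * g ∧ 4 * (2 * (M * (2 * q)) ^ (D * (h * g) + g)) ≤
      (1 / 2) ^ (h * g) * q ^ (D * (h * g) + E) := by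
  have h0 : 0 < M := by positivity
  obtain ⟨h, hh⟩ := exists_nat_ge (64 * c * (24 * M ^ 2) + 4)
  set q := min ((1 / (24 * M ^ 2)) ^ 2) ((1 / 2) ^ (h + 1) / (2 * M) ^ (D * h + 1))
  have hq : 0 < q := by positivity
  refine ⟨1 / (24 * M ^ 2), q, h, hq, min_le_left _ _, ?_, ?_, by field_simp; norm_num,
    by exact_mod_cast le_add_self.trans hh, ?_, fun N => ?_⟩
  · exact one_div_le_one_div_of_le (by norm_num) (le_mul_of_one_le_right' (one_le_pow₀ hM))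
  · rw [mul_one_div, div_le_div_iff₀ (by positivity) (by norm_num), one_mul, mul_comm]
    exact mul_le_mul_right (le_self_pow₀ hM two_ne_zero) _
  · rw [one_div, ← div_eq_inv_mul, le_div_iff₀ (by positivity)]
    exact le_self_add.trans hh
  obtain ⟨g1, h1⟩ := exists_nat_ge (1 / q)
  obtain ⟨g2, h2⟩ := exists_pow_lt_of_lt_one (show 0 < q ^ E / 8 by positivity)
    (show (1 / 2 : ℝ≥0) < 1 by norm_num)
  refine ⟨N + g1 + g2, by omega, ?_, ?_⟩
  · rw [div_le_iff₀' hq] at h1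
    exact h1.trans (mul_le_mul_right (by norm_cast; omega) _)
  set g := N + g1 + g2
  have h3 : (2 * M) ^ (D * h + 1) * q ≤ (1 / 2) ^ (h + 1) :=
    (le_div_iff₀' (by positivity)).1 (min_le_right _ _)
  have h4 : (1 / 2 : ℝ≥0) ^ g * 8 ≤ q ^ E := (le_div_iff₀ (by norm_num)).1
    ((pow_le_pow_right_of_le_one' (by norm_num) (by omega)).trans h2.le)
  calc _ = 8 * ((2 * M) ^ (D * h + 1) * q) ^ g * q ^ (D * (h * g)) := by ring
    _ ≤ 8 * ((1 / 2) ^ (h + 1)) ^ g * q ^ (D * (h * g)) := by gcongr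
    _ = (1 / 2) ^ (h * g) * (q ^ (D * (h * g)) * ((1 / 2) ^ g * 8)) := by ring
    _ ≤ _ := by rw [pow_add q]; gcongr

theorem arith {r q c h g G B W T : ℝ}
    (h1 : r * G ≤ (q + 3 * (r / 12)) * G + (1 + 2 * (r / 12)) * (B + W))
    (h2 : q * (h * g * W) ≤ G + q * (g * W + h * g * T)) (h3 : B ≤ 2 * q * (c * (g * W + T)))
    (h4 : 4 * T ≤ W) (h5 : 0 < W) (h6 : q ≤ r ^ 2) (h7 : r ≤ 1 / 24) (h8 : 1 ≤ c)
    (h9 : 1 ≤ q * g) (ha : 4 ≤ h) (hb : 64 * c ≤ r * h) (hq : 0 < q) (hr : 0 ≤ r) (hG : 0 ≤ G)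
    (hB : 0 ≤ B) : False := by
  have hg : 1 ≤ g := by nlinarith
  set Y := q * g * W
  have hY : W ≤ Y := le_mul_of_one_le_left h5.le h9
  have a1 : h * Y / 2 ≤ G := by
    have := mul_le_mul_of_nonneg_left h4 (show 0 ≤ q * h * g by positivity)
    have := mul_le_mul_of_nonneg_right ha (h5.le.trans hY)
    simp only [Y] at *
    nlinarith
  have a2 : B ≤ 4 * c * Y := by
    have := mul_le_mul_of_nonneg_left (show T ≤ g * W by nlinarith)
      (show 0 ≤ 2 * q * c by positivity)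
    simp only [Y]
    nlinarith
  have a3 : r / 2 * G ≤ 2 * (B + W) := by
    have := mul_le_mul_of_nonneg_right (show q ≤ r / 4 by nlinarith) hG
    have := mul_le_mul_of_nonneg_right h7 (add_nonneg hB h5.le)
    nlinarith
  have a4 := mul_le_mul_of_nonneg_left a1 hr
  have a5 := mul_le_mul_of_nonneg_right hb (h5.le.trans hY)
  have a6 := mul_le_mul_of_nonneg_right h8 (h5.le.trans hY)
  nlinarith

variable {d : ℕ}

theorem WJ_symm (a b : Zd d) : W a b ∪ J a b ⊆ W b a ∪ J b a := fun _ h => h.imp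
  (fun h => ⟨by rw [cl_eq h.2]; exact h.1, cl_symm h.2⟩)
  fun h => ⟨h.2.1, h.1, fun h' => h.2.2.1 (cl_symm h'), inter_comm _ _ ▸ h.2.2.2⟩

theorem core (h3 : 3 ≤ d) (o : Fin d) : ∃ q r : ℝ≥0, 0 < q ∧ q < 1 ∧ 0 < r ∧ r < 1 ∧
    ∀ (F : Measure ℝ≥0) [IsProbabilityMeasure F], F {0}ᶜ = q → F {0, 1}ᶜ = r * q → ∀ N : ℕ,
      ∃ n, N ≤ n ∧ PP d F (Long 0 (Pi.single o ((n + 1 : ℕ) : ℤ))) <
        PP d F (Long 0 (Pi.single o (n : ℤ))) := by
  have hd2 : 2 ≤ d := by omega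
  obtain ⟨M, hM1, hM⟩ := peierls d
  obtain ⟨r, q, h, p1, p2, p3, p4, p5, p6, p7, p8⟩ :=
    params hM1 (d * 3 ^ d * (6 * d)) (2 * (d - 1)) (2 * d)
  have r1 : r ≤ 1 / 2 := p3.trans (by norm_num [← NNReal.coe_le_coe])
  have r2 : r ≤ 1 := r1.trans (by norm_num)
  have q1 : q ≤ r * (1 / 2) := p2.trans (by rw [sq]; gcongr)
  have q2 : q ≤ 1 / 2 := q1.trans (mul_le_of_le_one_left' r2)
  have r3 : M * r ≤ 1 / 2 := p4.trans (by norm_num [← NNReal.coe_le_coe])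
  have q3 : M * (2 * q) ≤ 1 / 2 := le_trans (mul_le_mul_right
    ((mul_le_mul_right q1 2).trans (le_of_eq (by ring))) _) r3
  have q4 : M * q ≤ 1 / 2 := le_trans (mul_le_mul_right (le_mul_of_one_le_left' one_le_two) _) q3
  refine ⟨q, r, p1, q2.trans_lt (by norm_num), pos_iff_ne_zero.2 fun h => by simp [h, p1.ne'] at p2,
    r1.trans_lt (by norm_num), fun F _ hq hη N => ?_⟩
  by_contra! hn
  obtain ⟨g, g1, g2, g3⟩ := p8 N
  set n := h * g
  set b : Zd d := Pi.single o (n : ℤ) with hb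
  obtain ⟨p, hp⟩ : ∃ p : ℝ≥0, F {0} = p := ⟨_, (ENNReal.coe_toNNReal (measure_ne_top _ _)).symm⟩
  have p0 : 1 / 2 ≤ p := by
    have := prob_add_prob_compl (μ := F) (measurableSet_singleton 0)
    rw [hp, hq] at this
    norm_cast at this
    rw [← NNReal.coe_le_coe] at q2 ⊢
    have := congrArg NNReal.toReal this
    push_cast at *
    linarith
  have mono : ∀ m, n ≤ m → PP d F (Long 0 b) ≤ PP d F (Long 0 (Pi.single o (m : ℤ))) := by
    intro m hm
    induction m, hm using Nat.le_induction with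
    | base => exact le_rfl
    | succ m hm ih => exact ih.trans (hn m (g1.trans ((Nat.le_mul_of_pos_left g (by omega)).trans hm)))
  have t := (ENNReal.Tendsto.const_mul (a := 4) (far_tendsto (F := F) (loc_cc (0 : Zd d)).1 0)
    (Or.inr (by norm_num))).add (ENNReal.Tendsto.const_mul (a := 2)
      (far_tendsto (F := F) (loc_UU (0 : Zd d)).1 0) (Or.inr (by norm_num)))
  have e1 := ge_of_tendsto' (t.const_add _) fun R => (add_le_add_left
    (mono (n + 2 * R + 2) (by omega)) _).trans (upper hd2 hM hq q4 o (R := R) (by simp; omega))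
  have e2 := lower (F := F) 0 b
  have hε : F {1} ≤ r * F {0} := by
    refine (measure_mono (t := {0}ᶜ) (by simp)).trans ?_
    rw [hq, hp]
    exact_mod_cast q1.trans (mul_le_mul_right p0 _)
  have hu : PP d F (op ⁻¹' (W 0 b ∪ J 0 b)) ≤ PP d F (op ⁻¹' W 0 b) +
      (PP d F (op ⁻¹' (J 0 b ∩ Sp o 0 b)) + PP d F (op ⁻¹' (J 0 b \ Sp o 0 b))) :=
    (measure_union_le _ _).trans (add_le_add_right (measure_le_inter_add_sdiff _ _ _) _)
  have e3 := (step2 hd2 hM r3 hε (hq ▸ hη) 0 b).trans (mul_le_mul_right hu _)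
  have e4 := (step2 hd2 hM r3 hε (hq ▸ hη) b 0).trans (mul_le_mul_right
    ((measure_mono (preimage_mono (WJ_symm b 0))).trans hu) _)
  have e5 := step3 hd2 hM r3 (hq.le.trans (by exact_mod_cast p2)) r2 o 0 b
  have e6 := G1_ge (hq ▸ hη) o 0 b
  obtain ⟨e7, e8⟩ := num_le h3 hM hq q3 o n g hb rfl
  have e9 := (mul_le_mul_right e7 (F {0}ᶜ)).trans
    ((mul_add _ _ _).le.trans (add_le_add_left good_ge _))
  have e10 := (bad_le (by
    rw [hp]; exact_mod_cast (div_le_iff₀' two_pos).1 p0)).trans (mul_le_mul_right e8 _)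
  have e11 := (ENNReal.coe_le_coe.2 (g3.trans (mul_le_mul_left (pow_le_pow_left' p0 _) _))).trans
    (W_ge hp hq o n)
  have e12 := (ENNReal.coe_pos.2 (by positivity)).trans_le (W_ge hp hq o n)
  rw [P_fin cov_cc (loc_cc 0).1 b] at e5
  rw [← hb] at e11 e12
  rw [hq] at e5 e9 e10
  rw [p5] at e3 e4 e5
  clear e7 e8 hu t mono hn
  generalize 2 * (M * (2 * q)) ^ (2 * (d - 1) * n + g) = T at *
  lift PP d F (op ⁻¹' W 0 b) to ℝ≥0 using measure_ne_top _ _ with W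
  lift PP d F (op ⁻¹' (J 0 b ∩ Sp o 0 b)) to ℝ≥0 using measure_ne_top _ _ with G
  lift PP d F (op ⁻¹' (J 0 b \ Sp o 0 b)) to ℝ≥0 using measure_ne_top _ _ with B
  lift PP d F (fin (cc 0)) to ℝ≥0 using measure_ne_top _ _ with α
  lift PP d F (fin (UU 0)) to ℝ≥0 using measure_ne_top _ _ with β
  lift PP d F (Long 0 b) to ℝ≥0 using measure_ne_top _ _ with u
  lift PP d F (G1 0 b) to ℝ≥0 using measure_ne_top _ _ with x
  lift PP d F (NJ 0 b) to ℝ≥0 using measure_ne_top _ _ with y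
  lift PP d F (Inter (cc 0) (UU b)) to ℝ≥0 using measure_ne_top _ _ with z
  lift PP d F (Inter (cc b) (UU 0)) to ℝ≥0 using measure_ne_top _ _ with w
  simp only [mul_zero, add_zero] at e1
  have hc : 1 ≤ d * 3 ^ d * (6 * d) := Nat.pos_of_ne_zero (by positivity)
  generalize d * 3 ^ d * (6 * d) = c at *
  norm_cast at e1 e2 e3 e4 e5 e6 e9 e10 e11 e12
  simp only [← NNReal.coe_le_coe, n] at e1 e2 e3 e4 e5 e6 e9 e10 e11 p2 p3 p7 g2
  push_cast at *
  exact arith (G := G) (B := B) (by linarith) e9 e10 e11 e12 p2 p3 (by exact_mod_cast hc) g2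
    (by exact_mod_cast p6) p7 p1 r.2 G.2 B.2

end Pool.Agent.Lib.FP
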