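import Pool.Agent.Lib.MP_81a99a_pr.Defs

open scoped NNReal

namespace Pool.Agent.Lib.FP

open Pool.Agent.Lib.MP_81a99a_pr

/-- First-passage time from `u` to `v` in `ℤ^d`: the infimum, over lattice walks from `u` to `v`,
of the sum of the weights of the edges traversed. -/
noncomputable def passageTime {d : ℕ} (τ : (lattice d).edgeSet → ℝ≥0) (u v : Fin d → ℤ) : ℝ≥0 :=
  ⨅ w : (lattice d).Walk u v, (w.darts.map fun a => τ ⟨a.edge, a.edge_mem⟩).sum

end Pool.Agent.Lib.FP
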