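import Pool.Agent.Lib.FP.Prob

/-! The event of a long passage time: bounds from both sides. -/

open Set Relation MeasureTheory Filter
open scoped NNReal ENNReal

namespace Pool.Agent.Lib.FP

open Pool.Agent.TPC

variable {d : ℕ} {F : Measure ℝ≥0} [IsProbabilityMeasure F] {a b v : Zd d} {M q : ℝ≥0}
  {g h : Zd d → Om d → Set (Zd d)}

def sh (x : Zd d) (e : Ed d) : Ed d := (e.1 + x, e.2)

theorem hd_sh (x : Zd d) (e : Ed d) : hd (sh x e) = hd e + x := add_right_comm _ _ _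

theorem cl_sh (x : Zd d) (σ : Set (Ed d)) (v : Zd d) :
    cl (sh x ⁻¹' σ) v = (· + x) ⁻¹' cl σ (v + x) := by
  have key : ∀ (x : Zd d) σ v, cl (sh x ⁻¹' σ) v ⊆ (· + x) ⁻¹' cl σ (v + x) := fun x σ v =>
    cl_subset (self_mem _ _) fun e he a b h _ ha => cl_step ha he (by
      rcases h with ⟨rfl, rfl⟩ | ⟨rfl, rfl⟩
      exacts [Or.inl ⟨rfl, hd_sh x e⟩, Or.inr ⟨rfl, hd_sh x e⟩])
  refine Subset.antisymm (key x σ v) fun u hu => ?_
  have e : sh (-x) ⁻¹' (sh x ⁻¹' σ) = σ := by ext e; simp [sh]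
  simpa using key (-x) (sh x ⁻¹' σ) (v + x) (a := u + x) (e.symm ▸ hu)

theorem fin_sh (x : Zd d) (S : Set (Zd d)) : ((· + x) ⁻¹' S).Finite ↔ S.Finite :=
  ⟨fun h => h.of_preimage (add_right_surjective x),
    fun h => h.preimage (add_left_injective x).injOn⟩

/-- translation covariance -/
def Cov (g : Zd d → Om d → Set (Zd d)) : Prop :=
  ∀ x v τ, g v (τ ∘ sh x) = (· + x) ⁻¹' g (v + x) τ

theorem cov_cc : Cov (cc : Zd d → _) := fun x v τ => cl_sh x (op τ) v

theorem cov_UU : Cov (UU : Zd d → _) := fun x v τ => by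
  have h1 : ∀ S : Set (Zd d), ins ((· + x) ⁻¹' S)ᶜ = sh x ⁻¹' ins Sᶜ := fun S => by
    ext e; simp only [ins, hd_sh, mem_ofPred_eq, mem_preimage, mem_compl_iff]; rfl
  have h2 : ∀ S : Set (Zd d), fill ((· + x) ⁻¹' S) = (· + x) ⁻¹' fill S := fun S => by
    ext u; simp only [fill, mem_ofPred_eq, mem_preimage, h1, cl_sh, fin_sh]
  have h3 : Uo v (τ ∘ sh x) = sh x ⁻¹' Uo (v + x) τ := by
    ext e
    simp only [Uo, cov_cc x v τ, h2, bd, mem_union, mem_inter_iff, mem_ofPred_eq, mem_preimage,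
      hd_sh]
    rfl
  rw [UU, h3, cl_sh, UU]

theorem P_sh (x : Zd d) {X : Set (Om d)} (mX : MeasurableSet X) :
    PP d F ((· ∘ sh x) ⁻¹' X) = PP d F X := by
  have := Measure.map_infinitePi_infinitePi_of_inj (P := fun _ : Ed d => F) (f := sh x)
    fun e e' h => Prod.ext (add_right_cancel (congrArg Prod.fst h)) (congrArg Prod.snd h :)
  conv_rhs => rw [PP, ← this, Measure.map_apply (by fun_prop) mX]
  rfl

theorem P_fin (hg : Cov g) (mg : Measurable (g 0)) (x : Zd d) :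
    PP d F (fin (g x)) = PP d F (fin (g 0)) := by
  rw [← P_sh x (meas_fin mg)]
  congr 1; ext τ
  simp only [fin, mem_ofPred_eq, mem_preimage, hg x 0 τ, fin_sh, zero_add]

theorem P_far (hg : Cov g) (mg : Measurable (g 0)) (x : Zd d) (R : ℕ) :
    PP d F (far (g x) x R) = PP d F (far (g 0) 0 R) := by
  rw [← P_sh x (X := far (g 0) 0 R) (meas_one mg fun S => ¬S ⊆ box (0 : Zd d) R)]
  congr 1; ext τ
  simp only [far, mem_ofPred_eq, mem_preimage, hg x 0 τ, fin_sh, zero_add]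
  refine and_congr_right fun _ => not_congr ⟨fun h u hu => mem_box'.2 fun i => ?_,
    fun h u hu => mem_box'.2 fun i => ?_⟩
  · have := mem_box'.1 (h hu) i
    simp only [Pi.add_apply, Pi.zero_apply] at *; omega
  · have := mem_box'.1 (h (a := u - x) (by simpa)) i
    simp only [Pi.sub_apply, Pi.zero_apply] at *; omega

/-- the bound on rooted edge sets -/
def Pei (d : ℕ) (M : ℝ≥0) : Prop := ∀ (v : Zd d) (s : ℝ≥0) (k : ℕ), M * s ≤ 1 / 2 →
  ∑' K : Fam v k, (s : ℝ≥0∞) ^ K.1.card ≤ (2 * (M * s) ^ k : ℝ≥0)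

theorem m0 : MeasurableSet ({0}ᶜ : Set ℝ≥0) := (measurableSet_singleton 0).compl

theorem uniq (hd2 : 2 ≤ d) (hM : Pei d M) (hq : F {0}ᶜ = q) (h : M * q ≤ 1 / 2) :
    ∀ᵐ τ ∂PP d F, ∀ a b, (cc a τ).Infinite → (cc b τ).Infinite → b ∈ cc a τ := by
  have key : ∀ v : Zd d, PP d F (⋂ m, ⋃ K : Fam v m, cyl K.1 {0}ᶜ) = 0 := fun v => by
    have t : Tendsto (fun m : ℕ => ((2 * (M * q) ^ m : ℝ≥0) : ℝ≥0∞)) atTop (nhds 0) := by
      simpa using ENNReal.tendsto_coe.2 ((NNReal.tendsto_pow_atTop_nhds_zero_of_lt_one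
        (h.trans_lt (by norm_num))).const_mul 2)
    refine le_zero_iff.1 (ge_of_tendsto' t fun m => (measure_mono (iInter_subset _ m)).trans
      ((measure_iUnion_le _).trans ?_))
    simp only [P_cyl _ m0, hq]
    exact hM v q m h
  refine measure_mono_null (fun τ hτ => ?_) (measure_iUnion_null key)
  simp only [mem_compl_iff, mem_ofPred_eq, not_forall] at hτ
  obtain ⟨a, b, ha, hb, hab⟩ := hτ
  obtain ⟨v, hv⟩ := two_inf hd2 ha hb hab
  exact mem_iUnion.2 ⟨v, mem_iInter.2 fun m => let ⟨K, hK⟩ := hv m; mem_iUnion.2 ⟨K, hK⟩⟩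

/-- the clusters of `a` and `b` are different and no light edge joins them -/
def Long (a b : Zd d) : Set (Om d) :=
  {τ | b ∉ cc a τ ∧ ∀ e, τ e = 1 → e ∈ touch (cc a τ) → e ∉ touch (cc b τ)}

theorem long_symm {τ : Om d} (h : τ ∈ Long a b) : τ ∈ Long b a :=
  ⟨fun h' => h.1 (cl_symm h'), fun e h1 h2 h3 => h.2 e h1 h3 h2⟩

theorem meas_long : MeasurableSet (Long a b) := by
  have m := fun v : Zd d => measurable_set_iff.1 (loc_cc v).1
  exact measurableSet_setOfPred.2 ((m a b).not.and (Measurable.forall fun e =>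
    (measurableSet_setOfPred.1 (measurable_pi_apply e (measurableSet_singleton 1))).imp
      (((m a _).or (m a _)).imp ((m b _).or (m b _)).not)))

theorem long_of {τ : Om d} (ha : τ ∉ fin (cc a)) (hb : τ ∈ fin (UU b)) : τ ∈ Long a b := by
  have k : ∀ s ∈ cc a τ, s ∉ UU b τ := fun s hs h => ha (Finite.subset hb fun u hu =>
    cl_trans h (cl_mono subset_union_left _ (cl_trans (cl_symm hs) hu)))
  have h1 : b ∉ cc a τ := fun h => k b h (self_mem _ _)
  refine ⟨h1, fun e he h2 h3 => ?_⟩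
  obtain ⟨s, z, h4, hs, hz⟩ := ends_both (cl_disj h1) h2 h3
  refine k s hs (cl_step (cc_sub _ _ hz) (Or.inr ⟨he, h4.symm.bd (subset_fill _ hz) fun h => ?_⟩)
    h4.symm)
  exact ha (Finite.subset h fun u hu =>
    cl_mono (ins_mono (cl_disj h1).subset_compl_right) _ (con_cl _ _ s hs u hu))

theorem fin_UU {τ : Om d} (hU : ∀ a b, (cc a τ).Infinite → (cc b τ).Infinite → b ∈ cc a τ)
    (h : τ ∈ Long a b) (ha : τ ∉ fin (cc a)) : τ ∈ fin (UU b) := by
  have k : ∀ v ∉ cc a τ, (cc v τ).Finite := fun v hv => not_not.1 fun h' => hv (hU a v ha h')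
  have hb := k b h.1
  refine ((hb.union (Finite.biUnion (s := {e | τ e = 1} ∩ touch (cc b τ))
    (t := fun e => cc e.1 τ ∪ cc (hd e) τ) ((touch_finite hb).subset inter_subset_right)
    fun e he => (k _ fun h' => h.2 e he.1 (Or.inl h') he.2).union
      (k _ fun h' => h.2 e he.1 (Or.inr h') he.2))).subset (cl_subset (Or.inl (self_mem _ _)) ?_))
  rintro e (he | he) u w h1 - hu
  · refine hu.imp (fun hu => cl_step hu he h1) fun hu => ?_
    obtain ⟨f, hf, hu⟩ := mem_iUnion₂.1 hu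
    exact mem_iUnion₂.2 ⟨f, hf, hu.imp (cl_step · he h1) (cl_step · he h1)⟩
  · exact Or.inr (mem_iUnion₂.2 ⟨e, ⟨he.1, bd_fill_touch he.2⟩,
      (ends_self e).mem h1 (Or.inl (self_mem _ _)) (Or.inr (self_mem _ _))⟩)

def G1 (a b : Zd d) : Set (Om d) := Long a b ∩ (fin (cc a) ∩ fin (cc b))

theorem lower (a b : Zd d) : PP d F (G1 a b) + 2 * PP d F (fin (UU 0)) ≤
    PP d F (Long a b) + 2 * (PP d F (fin (cc 0)) * PP d F (fin (UU 0))) +
      (PP d F (Inter (cc a) (UU b)) + PP d F (Inter (cc b) (UU a))) := by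
  have mA := fun v : Zd d => meas_fin (loc_cc v).1
  have mB := fun v : Zd d => meas_fin (loc_UU v).1
  have s : ∀ v : Zd d, fin (UU v) ⊆ fin (cc v) := fun v τ h => Finite.subset h (cc_sub v τ)
  have k : ∀ a b : Zd d, PP d F (fin (UU 0)) ≤ PP d F (fin (UU b) \ fin (cc a)) +
      (PP d F (fin (cc 0)) * PP d F (fin (UU 0)) + PP d F (Inter (cc a) (UU b))) := fun a b => by
    have := both_le (F := F) (loc_cc a) (loc_UU b)
    rw [P_fin cov_cc (loc_cc 0).1, P_fin cov_UU (loc_UU 0).1, inter_comm] at this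
    conv_lhs => rw [← P_fin cov_UU (loc_UU 0).1 b, ← measure_inter_add_sdiff _ (mA a), add_comm]
    exact add_le_add_right this _
  have l : PP d F (G1 a b) + (PP d F (fin (UU b) \ fin (cc a)) + PP d F (fin (UU a) \ fin (cc b)))
      ≤ PP d F (Long a b) := by
    rw [← measure_union (disjoint_left.2 fun τ h1 h2 => h1.2 (s a h2.1)) ((mB a).diff (mA b)),
      ← measure_union (disjoint_left.2 fun τ h1 h2 => h2.elim (fun h => h.2 h1.2.1)
        fun h => h.2 h1.2.2) (((mB b).diff (mA a)).union ((mB a).diff (mA b)))]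
    exact measure_mono (union_subset inter_subset_left (union_subset
      (fun τ h => long_of h.2 h.1) fun τ h => long_symm (long_of h.2 h.1)))
  rw [two_mul]
  refine (add_le_add_right (add_le_add (k a b) (k b a)) _).trans ?_
  refine le_trans (le_of_eq ?_) (add_le_add_left (add_le_add_left l _) _)
  ring

theorem upper (hd2 : 2 ≤ d) (hM : Pei d M) (hq : F {0}ᶜ = q) (h : M * q ≤ 1 / 2) (o : Fin d)
    {R : ℕ} (hR : a o + 2 * R + 1 < b o) :
    PP d F (Long a b) + 2 * (PP d F (fin (cc 0)) * PP d F (fin (UU 0))) ≤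
      PP d F (fin (cc 0)) * PP d F (fin (cc 0)) + 2 * PP d F (fin (UU 0)) +
        (4 * PP d F (far (cc 0) 0 R) + 2 * PP d F (far (UU 0) 0 R)) := by
  have mA := fun v : Zd d => meas_fin (loc_cc v).1
  have k : ∀ a b : Zd d, a o + 2 * R + 1 < b o ∨ b o + 2 * R + 1 < a o →
      PP d F (fin (UU b) \ fin (cc a)) + PP d F (fin (cc 0)) * PP d F (fin (UU 0)) ≤
      PP d F (fin (UU 0)) + (PP d F (far (cc 0) 0 R) + PP d F (far (UU 0) 0 R)) := by
    intro a b hR
    have := le_both (F := F) o hR (loc_cc a) (loc_UU b)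
    rw [P_fin cov_cc (loc_cc 0).1, P_fin cov_UU (loc_UU 0).1, P_far cov_cc (loc_cc 0).1,
      P_far cov_UU (loc_UU 0).1, inter_comm] at this
    conv_rhs => rw [← P_fin cov_UU (loc_UU 0).1 b, ← measure_inter_add_sdiff _ (mA a),
      add_comm (PP d F (_ ∩ _)), add_assoc]
    exact add_le_add_right this _
  have l : PP d F (Long a b) ≤ PP d F (fin (cc a) ∩ fin (cc b)) +
      (PP d F (fin (UU b) \ fin (cc a)) + PP d F (fin (UU a) \ fin (cc b))) := by
    refine le_trans (measure_mono_ae ?_) ((measure_union_le _ _).trans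
      (add_le_add_right (measure_union_le _ _) _))
    filter_upwards [uniq hd2 hM hq h] with τ hU hτ
    by_cases h1 : τ ∈ fin (cc a)
    · by_cases h2 : τ ∈ fin (cc b)
      exacts [Or.inl ⟨h1, h2⟩, Or.inr (Or.inr ⟨fin_UU hU (long_symm hτ) h2, h2⟩)]
    · exact Or.inr (Or.inl ⟨fin_UU hU hτ h1, h1⟩)
  have l2 := (both_le (F := F) (loc_cc a) (loc_cc b)).trans (add_le_add_right (inter_le o hR) _)
  rw [P_fin cov_cc (loc_cc 0).1, P_fin cov_cc (loc_cc 0).1 b, P_far cov_cc (loc_cc 0).1,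
    P_far cov_cc (loc_cc 0).1 b] at l2
  refine (add_le_add_left (l.trans (add_le_add_left l2 _)) _).trans ?_
  refine le_trans (le_of_eq ?_) ((add_le_add_right (add_le_add (k a b (Or.inl hR))
    (k b a (Or.inr hR))) (PP d F (fin (cc 0)) * PP d F (fin (cc 0)) +
      2 * PP d F (far (cc 0) 0 R))).trans (le_of_eq ?_)) <;> ring

end Pool.Agent.Lib.FP
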