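import Pool.Agent.Lib.FP.Est1

/-! Pairs of clusters with a common edge. -/

open Set Relation MeasureTheory
open scoped NNReal ENNReal

namespace Pool.Agent.Lib.FP

open Pool.Agent.TPC

variable {d : ℕ} {F : Measure ℝ≥0} [IsProbabilityMeasure F] {a b y : Zd d} {M q r : ℝ≥0}
  {o : Fin d}

theorem m1 : MeasurableSet ({0, 1}ᶜ : Set ℝ≥0) := (measurableSet_singleton 1).insert 0 |>.compl

theorem step2 (hd2 : 2 ≤ d) (hM : Pei d M) (hr : M * r ≤ 1 / 2) (hε : F {1} ≤ r * F {0})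
    (hη : F {0, 1}ᶜ = r * F {0}ᶜ) (a b : Zd d) : PP d F (Inter (cc a) (UU b)) ≤
      (2 * (M * r) ^ 2 : ℝ≥0) * PP d F (op ⁻¹' (W a b ∪ J a b)) := by
  classical
  let X : Finset (Ed d) → Finset (Ed d) → Set (Om d) := fun K O =>
    {τ | (op τ ∩ (↑O ∪ ↑(K \ O))ᶜ) ∪ ↑O ∈ W a b ∪ J a b}
  have mX : ∀ K O, MeasurableSet (X K O) := fun K O => meas_mod _ _ (meas_W.union meas_J)
  have dX : ∀ K O : Finset (Ed d), Dep (↑O ∪ ↑(K \ O))ᶜ (X K O) := fun K O =>
    dep_op (Z := W a b ∪ J a b) (· ∪ (O : Set (Ed d)))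
  have cov : Inter (cc a) (UU b) ⊆ ⋃ K : Fam b 2, ⋃ O ∈ K.1.powerset,
      cyl O {1} ∩ (cyl (K.1 \ O) {0, 1}ᶜ ∩ X K.1 O) := by
    rintro τ ⟨ha, hb, e, h1, h2⟩
    obtain ⟨K, hK⟩ := fam_bd hd2 (hb.subset (cc_sub b τ)) (con_cl _ b) (self_mem _ b)
    have h0 : ∀ f ∈ K.1, τ f ≠ 0 := fun f hf => bd_fill_closed (hK.le hf)
    refine mem_iUnion.2 ⟨K, mem_iUnion₂.2 ⟨K.1.filter (τ · = 1),
      Finset.mem_powerset.2 (Finset.filter_subset _ _), fun f hf => (Finset.mem_filter.1 hf).2,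
      fun f hf => ?_, ?_⟩⟩
    · have := h0 f (Finset.mem_sdiff.1 hf).1
      simp only [Finset.mem_sdiff, Finset.mem_filter] at hf
      simp only [mem_compl_iff, mem_insert_iff, mem_singleton_iff]
      tauto
    have e1 : (op τ ∩ (↑(K.1.filter (τ · = 1)) ∪ ↑(K.1 \ K.1.filter (τ · = 1)))ᶜ) ∪
        ↑(K.1.filter (τ · = 1)) = Uo b τ := by
      ext f
      have := h0 f
      simp only [Uo, ← hK, op, mem_union, mem_inter_iff, mem_compl_iff, mem_ofPred_eq,
        Finset.mem_coe, Finset.mem_sdiff, Finset.mem_filter]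
      tauto
    simp only [X, mem_ofPred_eq, e1]
    by_cases hab : b ∈ cl (Uo b τ) a
    · exact Or.inl ⟨cl_eq hab ▸ hb, hab⟩
    have e2 : cl (op τ) a = cl (Uo b τ) a := cl_congr fun f hf =>
      ⟨fun h => h.resolve_right fun h' => ?_, Or.inl⟩
    · exact Or.inr ⟨e2 ▸ ha, hb, hab, e, e2 ▸ h1, h2⟩
    obtain ⟨u, w, h3, h4, -⟩ := bd_fill h'.2
    obtain ⟨u', w', h5, h6⟩ := ends_of_touch hf
    exact disjoint_left.1 (cl_disj hab) h6
      (h3.mem h5.symm (cc_sub _ _ h4) (cl_step (cc_sub _ _ h4) h h3))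
  refine (measure_mono cov).trans ((measure_iUnion_le _).trans (le_trans ?_
    (mul_le_mul_left (hM b r 2 hr) _)))
  rw [← ENNReal.tsum_mul_right]
  refine ENNReal.tsum_le_tsum fun K => (measure_biUnion_finset_le _ _).trans ?_
  refine le_trans ?_ (mul_le_mul_right (measure_mono (s := ⋃ O ∈ K.1.powerset,
    cyl O {0} ∩ (cyl (K.1 \ O) {0}ᶜ ∩ X K.1 O)) (iUnion₂_subset fun O hO τ hτ => ?_)) _)
  · rw [measure_biUnion_finset (fun O hO O' hO' h => disjoint_left.2 fun τ h1 h2 => h ?_)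
      fun O _ => (meas_cyl _ (measurableSet_singleton 0)).inter ((meas_cyl _ m0).inter (mX _ _)),
      Finset.mul_sum]
    · refine Finset.sum_le_sum fun O hO => ?_
      rw [resample2 Finset.disjoint_sdiff (measurableSet_singleton 1) m1 (dX _ _) (mX _ _),
        resample2 Finset.disjoint_sdiff (measurableSet_singleton 0) m0 (dX _ _) (mX _ _), hη,
        ← Finset.card_sdiff_add_card_eq_card (Finset.mem_powerset.1 hO)]
      refine (mul_le_mul_left (pow_le_pow_left' hε _) _).trans (le_of_eq ?_)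
      ring
    · ext f
      exact ⟨fun hf => by_contra fun hn => h2.2.1 f (Finset.mem_sdiff.2
        ⟨Finset.mem_powerset.1 hO hf, hn⟩) (h1.1 f hf), fun hf => by_contra fun hn => h1.2.1 f
        (Finset.mem_sdiff.2 ⟨Finset.mem_powerset.1 hO' hf, hn⟩) (h2.1 f hf)⟩
  · have : (op τ ∩ (↑O ∪ ↑(K.1 \ O))ᶜ) ∪ ↑O = op τ := by
      ext f
      have h1 := hτ.1 f
      have h2 := hτ.2.1 f
      simp only [op, mem_union, mem_inter_iff, mem_compl_iff, mem_ofPred_eq, Finset.mem_coe,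
        mem_singleton_iff] at *
      tauto
    exact mem_preimage.2 (this ▸ hτ.2.2)

theorem fill_half {C : Set (Zd d)} {k : ℤ} (h : ∀ u ∈ C, u o ≤ k) : ∀ u ∈ fill C, u o ≤ k := by
  intro u hu
  by_contra hn
  obtain ⟨y, hy, h4⟩ := exists_max_image (cl (ins Cᶜ) u) (· o) hu ⟨u, self_mem _ _⟩
  have h5 := h4 u (self_mem _ _)
  have h6 := hd_apply (y, o) o
  simp only [if_true] at h6
  have h7 := h4 _ (cl_step hy (e := (y, o)) ⟨fun h' => by have := h y h'; omega,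
    fun h' => by have := h _ h'; omega⟩ (ends_self _))
  omega

theorem psi (hd2 : 2 ≤ d) (hM : Pei d M) (hr : M * r ≤ 1 / 2) (hq : F {0}ᶜ ≤ r ^ 2) (hr1 : r ≤ 1)
    {k : ℤ} (hy : y o ≤ k) : PP d F {τ | (cl (op τ ∩ ins {u | u o ≤ k}) y).Finite} ≤
      (2 * (M * r) ^ 2 : ℝ≥0) := by
  classical
  let N : Finset (Ed d) → Finset (Ed d) := fun K => K.filter (· ∈ ins {u | u o ≤ k})
  refine le_trans (measure_mono (t := ⋃ K : Fam y 2, cyl (N K.1) {0}ᶜ ∩
    {_τ | K.1.card ≤ 2 * (N K.1).card}) fun τ hτ => ?_) ((measure_iUnion_le _).trans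
      (le_trans (ENNReal.tsum_le_tsum fun K => ?_) (hM y r 2 hr)))
  · obtain ⟨K, hK⟩ := fam_bd hd2 hτ (con_cl _ y) (self_mem _ y)
    have hF := fill_half (o := o) (cl_ins_sub (S := {u | u o ≤ k}) hy inter_subset_right
      (σ := op τ ∩ _))
    refine mem_iUnion.2 ⟨K, fun e he h => bd_fill_closed (hK.le (Finset.mem_filter.1 he).1)
      ⟨h, (Finset.mem_filter.1 he).2⟩, ?_⟩
    choose! f f1 f2 f3 using fun u hu => line_dn (u := u) (fill_finite hd2 hτ) hu o
    have key : ∀ e ∈ K.1.filter (· ∉ ins {u | u o ≤ k}),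
        e.1 ∈ fill (cl (op τ ∩ ins {u | u o ≤ k}) y) ∧ e.1 o = k ∧ e.2 = o := by
      intro e he
      obtain ⟨h1, h2⟩ := Finset.mem_filter.1 he
      obtain ⟨u, w, h3, h4, -⟩ := ends_of_bd (hK.le h1)
      have h5 := hF u h4
      have h6 := hd_apply e o
      simp only [ins, mem_ofPred_eq] at h2
      rcases h3 with ⟨rfl, -⟩ | ⟨-, rfl⟩ <;> split_ifs at h6 with h7 <;> try omega
      exact ⟨h4, by omega, h7.symm⟩
    have := Finset.card_le_card_of_injOn (s := K.1.filter (· ∉ ins {u | u o ≤ k})) (t := N K.1)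
      (fun e => (f e.1, o)) (fun e he => by
      have h1 := f2 _ (key e he).1
      have h2 := hF _ (by_contra fun h => h1 ⟨fun h' => absurd h' (f1 _ (key e he).1),
        fun h' => absurd h' h⟩ : hd (f e.1, o) ∈ fill _)
      have h3 := hd_apply (f e.1, o) o
      simp only [if_true] at h3
      exact Finset.mem_filter.2 ⟨hK.ge h1, show f e.1 o ≤ k by omega, h2⟩) fun e he e' he' h => by
      refine Prod.ext (funext fun l => ?_) ((key e he).2.2.trans (key e' he').2.2.symm)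
      by_cases hl : l = o
      · rw [hl, (key e he).2.1, (key e' he').2.1]
      · rw [← f3 _ (key e he).1 l hl, ← f3 _ (key e' he').1 l hl]
        exact congrFun (Prod.ext_iff.1 h).1 l
    have h2 := Finset.card_filter_add_card_filter_not (s := K.1) (· ∈ ins {u | u o ≤ k})
    simp only [N, mem_ofPred_eq] at *
    omega
  · by_cases h : K.1.card ≤ 2 * (N K.1).card
    · refine (measure_mono inter_subset_left).trans ?_
      rw [P_cyl _ m0]
      refine (pow_le_pow_left' hq _).trans ?_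
      rw [← pow_mul]
      exact pow_le_pow_right_of_le_one' (by exact_mod_cast hr1) h
    · simp [h]

/-- both clusters finite, different, without a common edge -/
def NJ (a b : Zd d) : Set (Om d) := {τ | (cc a τ).Finite ∧ (cc b τ).Finite ∧ b ∉ cc a τ ∧
  Disjoint (touch (cc a τ)) (touch (cc b τ))}

theorem meas_G : MeasurableSet (J a b ∩ Sp o a b) := meas_Sp o meas_J fun _ h => ⟨h.1, h.2.1⟩

theorem meas_B : MeasurableSet (J a b \ Sp o a b) := by
  rw [← sdiff_self_inter]; exact meas_J.diff meas_G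

theorem step3 (hd2 : 2 ≤ d) (hM : Pei d M) (hr : M * r ≤ 1 / 2) (hq : F {0}ᶜ ≤ r ^ 2) (hr1 : r ≤ 1)
    (o : Fin d) (a b : Zd d) : PP d F (fin (cc a)) * PP d F (fin (cc b)) ≤ PP d F (NJ a b) +
      (F {0}ᶜ + (2 * (M * r) ^ 2 : ℝ≥0)) * PP d F (op ⁻¹' (J a b ∩ Sp o a b)) +
      PP d F (op ⁻¹' (J a b \ Sp o a b)) + PP d F (op ⁻¹' W a b) := by
  have ma := (loc_cc a).1
  have mb := (loc_cc b).1
  have mN : MeasurableSet (NJ a b) :=
    meas_pair ma mb fun S D => b ∉ S ∧ Disjoint (touch S) (touch D)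
  rw [dec ma (meas_fin ma) Subset.rfl, dec2 ma mb mN (fun _ h => h.1) fun _ h => h.2.1,
    dec2 ma mb (meas_op meas_G) (fun _ h => h.1.1) fun _ h => h.1.2.1,
    dec2 ma mb (meas_op meas_B) (fun _ h => h.1.1) fun _ h => h.1.2.1,
    dec ma (meas_op meas_W) fun _ h => h.1, ← ENNReal.tsum_mul_left, ← ENNReal.tsum_add,
    ← ENNReal.tsum_add, ENNReal.tsum_prod', ← ENNReal.tsum_add, ← ENNReal.tsum_mul_right]
  refine ENNReal.tsum_le_tsum fun S => ?_
  rw [fin_ev]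
  by_cases hb : b ∈ S
  · refine le_add_left ((mul_le_of_le_one_right' prob_le_one).trans (measure_mono fun τ hτ =>
      ⟨⟨((fin_ev _ _).ge hτ).1, ?_⟩, hτ⟩))
    exact (hτ : cc a τ = S).ge hb
  let g : Om d → Set (Zd d) := fun τ => cl (op τ ∩ (touch S)ᶜ) b
  have mg : Measurable g := (meas_cl b).comp (meas_int _)
  rw [dec mg (meas_fin mb) fun τ h => Finite.subset h (cl_mono inter_subset_left _),
    ← ENNReal.tsum_mul_left]
  refine le_add_right (ENNReal.tsum_le_tsum fun D => ?_)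
  have d1 : Dep (touch S)ᶜ (ev g D) := dep_op (Z := {σ | cl σ b = D}) id
  have d2 : Dep (touch D) (ev g D) := fun τ τ' h1 h2 => (cl_congr fun e he => by
    simp [op, h1 e ((show g τ = D from h2) ▸ he)]).trans h2
  have j : PP d F (ev (cc a) S) * PP d F (ev g D) = PP d F (ev (cc a) S ∩ ev (cc b) D) := by
    rw [← indep ((loc_cc a).2 S) d1 disjoint_compl_right (meas_ev ma _) (meas_ev mg _)]
    congr 1
    refine Set.ext fun τ => and_congr_right fun hτ => ?_
    have h1 : cc a τ = S := hτ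
    have : g τ = cc b τ := cl_congr fun e he => ⟨fun h => ⟨h, fun h' => ?_⟩, fun h => h.1⟩
    · simp only [ev, mem_ofPred_eq, this]
    have h2 : b ∉ cc a τ := h1 ▸ hb
    obtain ⟨s, z, h3, hs, hz⟩ := ends_both (cl_disj h2) (show e ∈ touch (cc a τ) from h1 ▸ h') he
    exact disjoint_left.1 (cl_disj h2) (cl_step hs h h3) hz
  have t := (mul_le_mul_right (measure_mono (μ := PP d F) (inter_subset_right (s := fin (cc b))))
    (PP d F (ev (cc a) S))).trans j.le
  have w : ∀ Z : Set (Om d), (∀ τ, cc a τ = S → cc b τ = D → (cc a τ).Finite → (cc b τ).Finite →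
      b ∉ cc a τ → τ ∈ Z) → PP d F (ev (cc a) S ∩ ev (cc b) D) ≤
      PP d F (Z ∩ (ev (cc a) S ∩ ev (cc b) D)) := fun Z h => measure_mono fun τ hτ =>
    ⟨h τ hτ.1 hτ.2 ((fin_ev _ _).ge hτ.1).1 ((fin_ev _ _).ge hτ.2).1
      ((hτ.1 : cc a τ = S) ▸ hb), hτ⟩
  by_cases h1 : Disjoint (touch (S : Set (Zd d))) (touch D)
  · exact le_add_right (le_add_right (t.trans (w _ fun τ e1 e2 f1 f2 f3 =>
      ⟨f1, f2, f3, e1 ▸ e2 ▸ h1⟩)))
  obtain ⟨e, he⟩ := not_disjoint_iff_nonempty_inter.1 h1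
  have hJ : ∀ τ, cc a τ = S → cc b τ = D → (cc a τ).Finite → (cc b τ).Finite →
      b ∉ cc a τ → op τ ∈ J a b := fun τ e1 e2 f1 f2 f3 =>
    ⟨f1, f2, f3, e, (show e ∈ touch (cc a τ) ∩ touch (cc b τ) from e1 ▸ e2 ▸ he)⟩
  by_cases h2 : Sep o S D
  swap
  · exact le_add_left (t.trans (w _ fun τ e1 e2 f1 f2 f3 => ⟨hJ τ e1 e2 f1 f2 f3,
      fun h => h2 (e1 ▸ e2 ▸ h)⟩))
  refine le_add_right (le_add_left (le_trans ?_ (mul_le_mul_right (w (op ⁻¹' (J a b ∩ Sp o a b))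
    fun τ e1 e2 f1 f2 f3 => ⟨hJ τ e1 e2 f1 f2 f3, (show Sep o (cc a τ) (cc b τ) from e1 ▸ e2 ▸ h2)⟩) _)))
  obtain ⟨⟨k, hS, hD⟩, -⟩ := h2
  obtain ⟨s, z, h3, hs, hz⟩ := ends_both (disjoint_left.2 fun u h h' => (hD u h').not_ge (hS u h))
    he.1 he.2
  rw [← j, mul_left_comm]
  refine mul_le_mul_right (le_trans (measure_mono (t := cyl {e} {0}ᶜ ∩ ev g D ∪
    {τ | (cl (op τ ∩ ins {u | u o ≤ k}) s).Finite} ∩ ev g D) fun τ hτ => ?_)
    ((measure_union_le _ _).trans ?_)) _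
  · by_cases h0 : τ e = 0
    · refine Or.inr ⟨Finite.subset hτ.1 ((cl_mono inter_subset_left _).trans fun u hu =>
        cl_trans (cl_step (cl_mono inter_subset_left _ ((hτ.2 : g τ = D).ge hz)) h0 h3.symm) hu),
        hτ.2⟩
    · exact Or.inl ⟨by simpa [cyl] using h0, hτ.2⟩
  · have d3 : Dep (ins {u | u o ≤ k}) {τ | (cl (op τ ∩ ins {u | u o ≤ k}) s).Finite} :=
      dep_op (Z := {σ | (cl σ s).Finite}) id
    rw [resample _ m0 (d1.mono (compl_subset_compl.2 (by simpa using he.1))) (meas_ev mg _),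
      indep d3 d2 (disjoint_left.2 fun f h h' => h'.elim
        (fun h' => (hD _ h').not_ge h.1) fun h' => (hD _ h').not_ge h.2)
        (((meas_cl s).comp (meas_int _)) .setOfPred_finite) (meas_ev mg _), Finset.card_singleton,
      pow_one, add_mul]
    exact add_le_add_right (mul_le_mul_left (psi hd2 hM hr hq hr1 (hS s hs)) _) _

end Pool.Agent.Lib.FP
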