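import Pool.Agent.Lib.FP.Est2

/-! Counting pivotal edges. -/

open Set Relation MeasureTheory
open scoped NNReal ENNReal

namespace Pool.Agent.Lib.FP

open Pool.Agent.TPC

variable {d : ℕ} {F : Measure ℝ≥0} [IsProbabilityMeasure F] {a b : Zd d} {M q r : ℝ≥0}
  {o : Fin d} {s : Set ℝ≥0} {e : Ed d} {Z : Set (Set (Ed d))}

/-- after closing `e` the configuration lies in `Z` -/
def Cl (e : Ed d) (Z : Set (Set (Ed d))) : Set (Om d) := {τ | op τ \ {e} ∈ Z}

theorem meas_Cl (mZ : MeasurableSet Z) : MeasurableSet (Cl e Z) := meas_int {e}ᶜ mZ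

theorem P_Cl (hs : MeasurableSet s) (mZ : MeasurableSet Z) :
    PP d F (cyl {e} s ∩ Cl e Z) = F s * PP d F (Cl e Z) := by
  rw [resample _ hs (by rw [Finset.coe_singleton]; exact dep_op id) (meas_Cl mZ),
    Finset.card_singleton, pow_one]

theorem mG : MeasurableSet (Je a b e ∩ Sp o a b) := meas_Sp o (meas_Je e) fun _ h => ⟨h.1, h.2.1⟩

theorem mB : MeasurableSet (Je a b e \ Sp o a b) := by
  rw [← sdiff_self_inter]; exact (meas_Je e).diff mG

theorem mem_Cl (hs : s ⊆ {0}ᶜ) {τ : Om d} :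
    τ ∈ cyl {e} s ∩ Cl e Z ↔ τ e ∈ s ∧ op τ ∈ Z := by
  simp only [cyl, Cl, mem_inter_iff, mem_ofPred_eq, Finset.mem_singleton, forall_eq]
  exact and_congr_right fun h => by rw [sdiff_singleton_eq_self (s := op τ) (hs h)]

theorem je_closed {σ : Set (Ed d)} (h : σ ∈ Je a b e) : e ∉ σ := fun he =>
  let ⟨_, _, h1, hs, hz⟩ := ends_both (cl_disj h.2.2.1) h.2.2.2.1 h.2.2.2.2
  disjoint_left.1 (cl_disj h.2.2.1) (cl_step hs he h1) hz

theorem cover (Z : Set (Set (Ed d))) :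
    op ⁻¹' (J a b ∩ Z) ⊆ ⋃ e, cyl {e} {0}ᶜ ∩ Cl e (Je a b e ∩ Z) := fun _ ⟨⟨h1, h2, h3, e, h4⟩, h5⟩ =>
  mem_iUnion.2 ⟨e, (mem_Cl Subset.rfl).2 ⟨je_closed ⟨h1, h2, h3, h4⟩, ⟨h1, h2, h3, h4⟩, h5⟩⟩

theorem good_sum (hs : MeasurableSet s) (h0 : s ⊆ {0}ᶜ) :
    PP d F (⋃ e, cyl {e} s ∩ Cl e (Je a b e ∩ Sp o a b)) =
      F s * ∑' e, PP d F (Cl e (Je a b e ∩ Sp o a b)) := by
  rw [measure_iUnion (fun e e' h => disjoint_left.2 fun τ h1 h2 => h ?_)
    fun e => (meas_cyl _ hs).inter (meas_Cl mG), ← ENNReal.tsum_mul_left]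
  · simp only [P_Cl hs mG]
  · have h3 := ((mem_Cl h0).1 h1).2
    exact h3.2.2 h3.1.2.2.2 ((mem_Cl h0).1 h2).2.1.2.2.2

theorem G1_ge (hη : F {0, 1}ᶜ = r * F {0}ᶜ) (o : Fin d) (a b : Zd d) :
    PP d F (NJ a b) + r * PP d F (op ⁻¹' (J a b ∩ Sp o a b)) ≤ PP d F (G1 a b) := by
  have h0 : ({0, 1}ᶜ : Set ℝ≥0) ⊆ {0}ᶜ := compl_subset_compl.2 (by simp)
  refine (add_le_add_right (mul_le_mul_right (measure_mono (cover _)) _) _).trans ?_
  rw [good_sum m0 Subset.rfl, ← mul_assoc, ← hη, ← good_sum m1 h0, ← measure_union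
    (disjoint_left.2 fun τ h1 h2 => ?_) (.iUnion fun e => (meas_cyl _ m1).inter (meas_Cl mG))]
  · refine measure_mono (union_subset (fun τ h => ⟨⟨h.2.2.1, fun e _ h' =>
      disjoint_left.1 h.2.2.2 h'⟩, h.1, h.2.1⟩) (iUnion_subset fun e τ h => ?_))
    obtain ⟨h1, h2, h3⟩ := (mem_Cl h0).1 h
    refine ⟨⟨h2.2.2.1, fun f h4 h5 h6 => h1 (Or.inr ?_)⟩, h2.1, h2.2.1⟩
    exact h3.2 ⟨h5, h6⟩ h2.2.2.2 ▸ h4
  · obtain ⟨e, h⟩ := mem_iUnion.1 h2
    have := ((mem_Cl h0).1 h).2.1.2.2.2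
    exact disjoint_left.1 h1.2.2.2 this.1 this.2

/-- expected number of open edges whose closing leads to `Z` -/
noncomputable def Num (F : Measure ℝ≥0) (Z : Ed d → Set (Set (Ed d))) : ℝ≥0∞ :=
  ∑' e, PP d F (cyl {e} {0} ∩ Cl e (Z e))

theorem good_ge : F {0}ᶜ * Num F (fun e => Je a b e ∩ Sp o a b) ≤
    PP d F (op ⁻¹' (J a b ∩ Sp o a b)) := by
  refine (mul_le_mul_right (ENNReal.tsum_le_tsum fun e => measure_mono inter_subset_right) _).trans
    ((good_sum m0 Subset.rfl).ge.trans (measure_mono (iUnion_subset fun e τ h => ?_)))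
  obtain ⟨-, h2, h3⟩ := (mem_Cl Subset.rfl).1 h
  exact ⟨⟨h2.1, h2.2.1, h2.2.2.1, e, h2.2.2.2⟩, h3⟩

theorem bad_le (hp : 1 ≤ 2 * F {0}) : PP d F (op ⁻¹' (J a b \ Sp o a b)) ≤
    2 * F {0}ᶜ * Num F fun e => Je a b e \ Sp o a b := by
  refine (measure_mono (cover (Sp o a b)ᶜ)).trans ((measure_iUnion_le _).trans ?_)
  rw [Num, ← ENNReal.tsum_mul_left]
  refine ENNReal.tsum_le_tsum fun e => ?_
  rw [← sdiff_eq, P_Cl m0 mB, P_Cl (measurableSet_singleton 0) mB]
  refine (le_mul_of_one_le_left' hp).trans (le_of_eq ?_)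
  ring

omit [IsProbabilityMeasure F] in
theorem int_sum {ι : Type} [Countable ι] {A : ι → Set (Om d)} (mA : ∀ i, MeasurableSet (A i))
    (u : ι → ℝ≥0∞) : (Measurable fun τ => ∑' i, (A i).indicator (fun _ => u i) τ) ∧
    ∫⁻ τ, ∑' i, (A i).indicator (fun _ => u i) τ ∂PP d F = ∑' i, u i * PP d F (A i) :=
  ⟨.tsum fun i => measurable_const.indicator (mA i), by
    rw [lintegral_tsum fun i => (measurable_const.indicator (mA i)).aemeasurable]
    simp only [lintegral_indicator_const (mA _)]⟩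

theorem num_le (h3 : 3 ≤ d) (hM : Pei d M) (hq : F {0}ᶜ = q) (h : M * (2 * q) ≤ 1 / 2)
    (o : Fin d) (n g : ℕ) (hb : b = Pi.single o (n : ℤ)) {T : ℝ≥0}
    (hT : T = 2 * (M * (2 * q)) ^ (2 * (d - 1) * n + g)) :
    n * PP d F (op ⁻¹' W 0 b) ≤ Num F (fun e => Je 0 b e ∩ Sp o 0 b) +
      (g * PP d F (op ⁻¹' W 0 b) + n * T) ∧ Num F (fun e => Je 0 b e \ Sp o 0 b) ≤
      (d * 3 ^ d * (6 * d) : ℕ) * (g * PP d F (op ⁻¹' W 0 b) + T) := by
  classical
  have mW : MeasurableSet (op ⁻¹' W 0 b) := meas_op meas_W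
  have m2 := fun e : Ed d => meas_cyl {e} (measurableSet_singleton 0)
  obtain ⟨a1, a2⟩ := int_sum (F := F) (fun e => (m2 e).inter (meas_Cl (mG (o := o) (a := 0)
    (b := b) (e := e)))) fun _ => 1
  obtain ⟨-, b2⟩ := int_sum (F := F) (fun e => (m2 e).inter (meas_Cl (mB (o := o) (a := 0)
    (b := b) (e := e)))) fun _ => 1
  obtain ⟨c1, c2⟩ := int_sum (F := F) (fun K : Fam (0 : Zd d) (2 * (d - 1) * n + g) =>
    meas_cyl K.1 m0) fun K => 2 ^ K.1.card
  simp only [one_mul] at a2 b2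
  have c3 := c2.le.trans (show _ ≤ (T : ℝ≥0∞) by
    refine le_trans (le_of_eq (tsum_congr fun K => ?_)) (hT ▸ hM 0 (2 * q) _ h)
    rw [P_cyl _ m0, hq, ← mul_pow]
    norm_cast)
  set Ng := fun τ => ∑' e, (cyl {e} {0} ∩ Cl e (Je 0 b e ∩ Sp o 0 b)).indicator
    (fun _ => (1 : ℝ≥0∞)) τ
  set Nb := fun τ => ∑' e, (cyl {e} {0} ∩ Cl e (Je 0 b e \ Sp o 0 b)).indicator
    (fun _ => (1 : ℝ≥0∞)) τ
  set Tf := fun τ => ∑' K : Fam (0 : Zd d) (2 * (d - 1) * n + g), (cyl K.1 {0}ᶜ).indicator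
    (fun _ => (2 : ℝ≥0∞) ^ K.1.card) τ
  have key : ∀ τ, op τ ∈ W 0 b → ∃ x : ℕ, n ≤ Ng τ + x ∧
      Nb τ ≤ (d * 3 ^ d * (6 * d) : ℕ) * (x + 1) ∧ (g ≤ x → x + 1 ≤ Tf τ) := by
    intro τ hτ
    subst hb
    obtain ⟨K, x, k1, k2, k3, ⟨G, k4, k5⟩, k6⟩ := struct h3 o n hτ
    refine ⟨x, le_trans (b := (G.card + x : ℝ≥0∞)) (by exact_mod_cast k4) (add_le_add_left
      (le_trans ?_ (ENNReal.sum_le_tsum G)) _), ENNReal.summable.tsum_le_of_sum_le fun B => ?_, fun hx =>
      le_trans ?_ (ENNReal.le_tsum ⟨K, k1, by omega⟩)⟩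
    · rw [Finset.sum_congr rfl fun e he => indicator_of_mem (s := cyl {e} {0} ∩ _)
        ⟨by simpa [cyl, op] using (k5 e he).1, (k5 e he).2⟩ _]
      simp
    · simp only [indicator_apply, Finset.sum_boole]
      rw [← Nat.cast_add_one, ← Nat.cast_mul, Nat.cast_le, mul_assoc (d * _)]
      exact k6 _ fun e he => ⟨by simpa [cyl, op] using (Finset.mem_filter.1 he).2.1,
        (Finset.mem_filter.1 he).2.2⟩
    · rw [indicator_of_mem (s := cyl K {0}ᶜ) k2]
      exact_mod_cast (by omega : x + 1 ≤ K.card + 1).trans Nat.lt_two_pow_self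
  constructor
  · refine le_trans ?_ (add_le_add_right (add_le_add_right (mul_le_mul_right c3 _) _) _)
    rw [Num, ← a2, ← lintegral_indicator_const mW, ← lintegral_indicator_const mW,
      ← lintegral_const_mul _ c1, ← lintegral_add_left (measurable_const.indicator mW),
      ← lintegral_add_left a1]
    refine lintegral_mono fun τ => ?_
    by_cases hτ : τ ∈ op ⁻¹' W 0 b
    · obtain ⟨x, k1, -, k3⟩ := key τ hτ
      simp only [indicator_of_mem hτ]
      rcases le_total x g with hx | hx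
      · exact k1.trans (add_le_add_right (le_add_right (by exact_mod_cast hx)) _)
      · exact le_add_left (le_add_left (le_mul_of_one_le_right' (le_add_self.trans (k3 hx))))
    · simp [indicator_of_notMem hτ]
  · refine le_trans ?_ (mul_le_mul_right (add_le_add_right c3 _) _)
    rw [Num, ← b2, ← lintegral_indicator_const mW,
      ← lintegral_add_left (measurable_const.indicator mW),
      ← lintegral_const_mul _ ((measurable_const.indicator mW).fun_add c1)]
    refine lintegral_mono fun τ => ?_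
    by_cases hτ : τ ∈ op ⁻¹' W 0 b
    · obtain ⟨x, -, k2, k3⟩ := key τ hτ
      simp only [indicator_of_mem hτ]
      refine k2.trans (mul_le_mul_right ?_ _)
      rcases lt_or_ge x g with hx | hx
      · exact le_add_right (by exact_mod_cast hx)
      · exact le_add_left (k3 hx)
    · refine le_trans (le_of_eq (ENNReal.tsum_eq_zero.2 fun e => indicator_of_notMem
        (fun h' => hτ (piv_W (by simpa [cyl, op] using h'.1) h'.2.1)) _)) zero_le

theorem W_ge {p : ℝ≥0} (hp : F {0} = p) (hq : F {0}ᶜ = q) (o : Fin d) (n : ℕ) :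
    (p ^ n * q ^ (2 * (d - 1) * n + 2 * d) : ℝ≥0) ≤
      PP d F (op ⁻¹' W 0 (Pi.single o (n : ℤ))) := by
  classical
  let v : ℤ → Zd d := fun t => Pi.single o t
  let O : Finset (Ed d) := (Finset.range n).image fun t : ℕ => (v t, o)
  let L := Finset.range (n + 1) ×ˢ Finset.univ.erase o
  let N : Finset (Ed d) := (L.image (fun z => (v z.1, z.2)) ∪
    L.image fun z => (v z.1 - Pi.single z.2 1, z.2)) ∪ {(v (-1), o), (v n, o)}
  have hv : ∀ t, hd (v t, o) = v (t + 1) := fun t => by simp [hd, v, Pi.single_add]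
  have c1 : O.card ≤ n := Finset.card_image_le.trans (by simp)
  have c2 : (N \ O).card ≤ 2 * (d - 1) * n + 2 * d := by
    have h1 : L.card = (n + 1) * (d - 1) := by simp [L]
    have h2 := Finset.card_union_le (L.image (fun z => (v z.1, z.2)) ∪
      L.image fun z => (v z.1 - Pi.single z.2 1, z.2)) {(v (-1), o), (v n, o)}
    have h3 := (Finset.card_union_le _ _).trans (add_le_add
      (Finset.card_image_le (s := L) (f := fun z => (v z.1, z.2)))
      (Finset.card_image_le (s := L) (f := fun z => (v z.1 - Pi.single z.2 1, z.2))))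
    have h4 := Finset.card_le_two (a := (v (-1), o)) (b := (v n, o))
    have h5 := Finset.card_le_card (Finset.sdiff_subset (s := N) (t := O))
    obtain ⟨k, rfl⟩ : ∃ k, d = k + 1 := ⟨d - 1, by have := o.pos; omega⟩
    simp only [Nat.add_sub_cancel, N] at *
    nlinarith
  refine le_trans ?_ (measure_mono (s := cyl O {0} ∩ (cyl (N \ O) {0}ᶜ ∩ univ)) fun τ hτ => ?_)
  · rw [resample2 (X := univ) Finset.disjoint_sdiff (measurableSet_singleton 0) m0
      (fun _ _ _ _ => trivial) .univ, measure_univ, mul_one, ENNReal.coe_mul, ENNReal.coe_pow, ENNReal.coe_pow, ← hp, ← hq]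
    exact mul_le_mul' (pow_le_pow_right_of_le_one' prob_le_one c1)
      (pow_le_pow_right_of_le_one' prob_le_one c2)
  have hO : ∀ t : ℕ, t < n → (v t, o) ∈ O := fun t ht =>
    Finset.mem_image_of_mem _ (Finset.mem_range.2 ht)
  constructor
  · refine ((finite_Icc (0 : ℤ) n).image v).subset (cl_subset ⟨0, by simp, by simp [v]⟩ ?_)
    rintro e he _ w h1 - ⟨t, ht, rfl⟩
    have hN : e ∉ N \ O := fun h => hτ.2.1 e h he
    lift t to ℕ using ht.1
    have ht' : t < n + 1 := by have := ht.2; omega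
    obtain ⟨y, j⟩ := e
    by_cases hj : j = o
    · subst hj
      rcases h1 with ⟨rfl, rfl⟩ | ⟨rfl, h1⟩
      · rcases Nat.lt_succ_iff_lt_or_eq.1 ht' with h | rfl
        · exact ⟨t + 1, ⟨by omega, by omega⟩, (hv t).symm⟩
        · refine (hN (Finset.mem_sdiff.2 ⟨by simp [N], fun h => ?_⟩)).elim
          obtain ⟨u, h2, h3⟩ := Finset.mem_image.1 h
          have := congrFun (congrArg Prod.fst h3) j
          simp [v] at this h2; omega
      · have h2 : y = v (t - 1) := add_right_cancel (b := Pi.single j 1)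
          (h1.trans ((hv (t - 1)).trans (by simp)).symm)
        rcases Nat.eq_zero_or_pos t with rfl | h
        · refine (hN (Finset.mem_sdiff.2 ⟨by simp [N, h2], fun h => ?_⟩)).elim
          obtain ⟨u, -, h3⟩ := Finset.mem_image.1 h
          have := congrFun ((congrArg Prod.fst h3).trans h2) j
          simp [v] at this
        · exact ⟨t - 1, ⟨by omega, by omega⟩, h2.symm⟩
    · refine (hN (Finset.mem_sdiff.2 ⟨Finset.mem_union_left _ (Finset.mem_union.2 ?_),
        fun h => ?_⟩)).elim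
      · have hL : (t, j) ∈ L := by simp [L, hj, ht']
        exact h1.imp (fun h => Finset.mem_image.2 ⟨_, hL, Prod.ext h.1.symm rfl⟩)
          fun h => Finset.mem_image.2 ⟨_, hL, Prod.ext (sub_eq_of_eq_add h.2.symm) rfl⟩
      · obtain ⟨u, -, h3⟩ := Finset.mem_image.1 h
        exact hj (congrArg Prod.snd h3).symm
  · have : ∀ t : ℕ, t ≤ n → v t ∈ cl (op τ) 0 := by
      intro t
      induction t with
      | zero => exact fun _ => by simpa [v] using self_mem _ _
      | succ t ih => exact fun h => cl_step (ih (by omega)) (hτ.1 _ (hO t h)) (Or.inl ⟨rfl, hv t⟩)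
    exact this n le_rfl

end Pool.Agent.Lib.FP
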