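import Pool.Agent.Lib.TPC.B_CUT
import Pool.Agent.Lib.TPC.B_HULL

/-! Clusters, boundaries and fillings in the lattice, with edges labelled by base point and
direction. -/

open Set Relation

namespace Pool.Agent.Lib.FP

open Pool.Agent.TPC

variable {d : ℕ}

abbrev Ed (d : ℕ) := Zd d × Fin d

def hd (e : Ed d) : Zd d := e.1 + Pi.single e.2 1

def Ends (e : Ed d) (a b : Zd d) : Prop := (e.1 = a ∧ hd e = b) ∨ (e.1 = b ∧ hd e = a)

def cl (σ : Set (Ed d)) (v : Zd d) : Set (Zd d) :=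
  {u | ReflTransGen (fun a b => ∃ e ∈ σ, Ends e a b) v u}

def touch (S : Set (Zd d)) : Set (Ed d) := {e | e.1 ∈ S ∨ hd e ∈ S}

def bd (S : Set (Zd d)) : Set (Ed d) := {e | ¬(e.1 ∈ S ↔ hd e ∈ S)}

def ins (S : Set (Zd d)) : Set (Ed d) := {e | e.1 ∈ S ∧ hd e ∈ S}

def fill (C : Set (Zd d)) : Set (Zd d) := {u | (cl (ins Cᶜ) u).Finite}

def Con (S : Set (Zd d)) : Prop := ∀ a ∈ S, ∀ b ∈ S, b ∈ cl (ins S) a

variable {σ σ' : Set (Ed d)} {a b u v w : Zd d} {e : Ed d} {S C F : Set (Zd d)}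

theorem Ends.symm (h : Ends e a b) : Ends e b a := Or.symm h

theorem ends_self (e : Ed d) : Ends e e.1 (hd e) := Or.inl ⟨rfl, rfl⟩

theorem Ends.touch (h : Ends e a b) (ha : a ∈ S) : e ∈ touch S := by
  rcases h with ⟨rfl, -⟩ | ⟨-, rfl⟩
  exacts [Or.inl ha, Or.inr ha]

theorem Ends.ins (h : Ends e a b) : e ∈ ins S ↔ a ∈ S ∧ b ∈ S := by
  rcases h with ⟨rfl, rfl⟩ | ⟨rfl, rfl⟩
  exacts [Iff.rfl, and_comm]

theorem Ends.bd (h : Ends e a b) (ha : a ∈ S) (hb : b ∉ S) : e ∈ bd S := by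
  rcases h with ⟨rfl, rfl⟩ | ⟨rfl, rfl⟩
  exacts [fun h => hb (h.1 ha), fun h => hb (h.2 ha)]

theorem Ends.mem (h : Ends e a b) (h' : Ends e u w) (ha : a ∈ S) (hb : b ∈ S) : w ∈ S := by
  rcases h with ⟨rfl, rfl⟩ | ⟨rfl, rfl⟩ <;> rcases h' with ⟨-, rfl⟩ | ⟨rfl, -⟩ <;> assumption

theorem ends_of_touch (h : e ∈ touch S) : ∃ a b, Ends e a b ∧ a ∈ S :=
  h.elim (fun h => ⟨_, _, ends_self e, h⟩) fun h => ⟨_, _, (ends_self e).symm, h⟩

theorem ends_of_bd (h : e ∈ bd S) : ∃ a b, Ends e a b ∧ a ∈ S ∧ b ∉ S := by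
  by_cases h1 : e.1 ∈ S
  · exact ⟨_, _, ends_self e, h1, fun h2 => h ⟨fun _ => h2, fun _ => h1⟩⟩
  · refine ⟨_, _, (ends_self e).symm, ?_, h1⟩
    by_contra h2
    exact h ⟨fun h => absurd h h1, fun h => absurd h h2⟩

theorem bd_compl (S : Set (Zd d)) : bd Sᶜ = bd S := by
  ext e; simp only [bd, mem_ofPred_eq, mem_compl_iff]; tauto

theorem touch_mono (h : S ⊆ C) : touch S ⊆ touch C := fun _ h' => h'.imp (@h _) (@h _)

theorem ins_mono (h : S ⊆ C) : ins S ⊆ ins C := fun _ h' => h'.imp (@h _) (@h _)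

theorem hd_apply (e : Ed d) (j : Fin d) : hd e j = e.1 j + if j = e.2 then 1 else 0 := by
  simp [hd, Pi.single_apply]

theorem Ends.coord (h : Ends e a b) (j : Fin d) : b j ≤ a j + 1 ∧ a j ≤ b j + 1 := by
  have := hd_apply e j
  rcases h with ⟨rfl, rfl⟩ | ⟨rfl, rfl⟩ <;> split_ifs at this <;> omega

theorem touch_finite (h : S.Finite) : (touch S).Finite := by
  refine ((h.prod finite_univ).union ((h.prod (finite_univ (α := Fin d))).image
    fun p => (p.1 - Pi.single p.2 1, p.2))).subset ?_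
  rintro e (he | he)
  · exact Or.inl ⟨he, trivial⟩
  · exact Or.inr ⟨(hd e, e.2), ⟨he, trivial⟩, by simp [hd]⟩

theorem self_mem (σ : Set (Ed d)) (v : Zd d) : v ∈ cl σ v := ReflTransGen.refl

theorem cl_step (h : a ∈ cl σ v) (he : e ∈ σ) (h' : Ends e a b) : b ∈ cl σ v :=
  ReflTransGen.tail h ⟨e, he, h'⟩

theorem cl_trans (h : a ∈ cl σ v) (h' : b ∈ cl σ a) : b ∈ cl σ v := ReflTransGen.trans h h'

theorem cl_symm (h : a ∈ cl σ v) : v ∈ cl σ a := by
  induction h with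
  | refl => exact self_mem _ _
  | tail _ h2 ih =>
    obtain ⟨e, he, h2⟩ := h2
    exact cl_trans (cl_step (self_mem _ _) he h2.symm) ih

theorem cl_subset (hv : v ∈ S) (h : ∀ e ∈ σ, ∀ a b, Ends e a b → a ∈ cl σ v → a ∈ S → b ∈ S) :
    cl σ v ⊆ S := by
  intro u hu
  induction hu with
  | refl => exact hv
  | tail h1 h2 ih => obtain ⟨e, he, h2⟩ := h2; exact h e he _ _ h2 h1 ih

theorem cl_mono (h : σ ⊆ σ') (v : Zd d) : cl σ v ⊆ cl σ' v :=
  cl_subset (self_mem _ _) fun _ he _ _ h1 _ h2 => cl_step h2 (h he) h1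

theorem cl_eq (h : a ∈ cl σ v) : cl σ a = cl σ v :=
  Subset.antisymm (fun _ h' => cl_trans h h') fun _ h' => cl_trans (cl_symm h) h'

theorem cl_congr (h : ∀ e ∈ touch (cl σ v), e ∈ σ ↔ e ∈ σ') : cl σ' v = cl σ v :=
  Subset.antisymm
    (cl_subset (self_mem _ _) fun e he _ _ h1 _ h2 => cl_step h2 ((h e (h1.touch h2)).2 he) h1)
    (cl_subset (self_mem _ _) fun e he _ _ h1 h3 h2 => cl_step h2 ((h e (h1.touch h3)).1 he) h1)

theorem cl_disj (h : a ∉ cl σ v) : Disjoint (cl σ v) (cl σ a) :=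
  disjoint_left.2 fun _ h1 h2 => h (cl_trans h1 (cl_symm h2))

/-- first exit from `S` -/
theorem exit (h : b ∈ cl σ a) (ha : a ∈ S) (hb : b ∉ S) :
    ∃ e ∈ σ, ∃ u w, Ends e u w ∧ u ∈ cl (σ ∩ ins S) a ∧ u ∈ S ∧ w ∉ S := by
  by_contra hn
  refine hb (cl_subset (S := cl (σ ∩ ins S) a ∩ S) ⟨self_mem _ _, ha⟩ ?_ h).2
  intro e he u w h1 _ h2
  have hw : w ∈ S := by
    by_contra hw
    exact hn ⟨e, he, u, w, h1, h2.1, h2.2, hw⟩
  exact ⟨cl_step h2.1 ⟨he, h1.ins.2 ⟨h2.2, hw⟩⟩ h1, hw⟩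

theorem cl_ins_sub (hv : v ∈ S) (h : σ ⊆ ins S) : cl σ v ⊆ S :=
  cl_subset hv fun _ he _ _ h1 _ _ => (h1.ins.1 (h he)).2

theorem con_cl (σ : Set (Ed d)) (v : Zd d) : Con (cl σ v) := by
  have : cl σ v ⊆ cl (ins (cl σ v)) v :=
    cl_subset (self_mem _ _) fun e he _ _ h1 h3 h2 =>
      cl_step h2 (h1.ins.2 ⟨h3, cl_step h3 he h1⟩) h1
  exact fun a ha b hb => cl_trans (cl_symm (this ha)) (this hb)

theorem cl_univ (a b : Zd d) : b ∈ cl univ a := by
  have := CUT.const (fun u => u ∈ cl univ a) (fun x i => propext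
    ⟨fun h => cl_step h (mem_univ (x, i)) (ends_self _).symm,
     fun h => cl_step h (mem_univ (x, i)) (ends_self _)⟩) b a
  exact this ▸ self_mem _ _

theorem ends_of_adj (h : (MP_81a99a_pr.lattice d).Adj a b) : ∃ e, Ends e a b := by
  obtain ⟨i, rfl | rfl⟩ := lattice_adj.1 h
  · exact ⟨(a, i), ends_self _⟩
  · exact ⟨(a - Pi.single i 1, i), Or.inr ⟨rfl, by simp [hd]⟩⟩

theorem cl_of_joined (h : Joined S a b) : b ∈ cl (ins S) a := by
  obtain ⟨h1, h2⟩ := h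
  induction h2 with
  | refl => exact self_mem _ _
  | tail h3 h4 ih =>
    obtain ⟨e, he⟩ := ends_of_adj h4.2
    exact cl_step ih (he.ins.2 ⟨HULL.jright ⟨h1, h3⟩, h4.1⟩) he

/-- a set made of `C` and of components of the complement of `C` is connected -/
theorem con_of_comp (hC : Con C) (hne : C.Nonempty) (h1 : C ⊆ F)
    (h2 : ∀ u ∈ F, cl (ins Cᶜ) u ⊆ F) : Con F := by
  obtain ⟨c, hc⟩ := hne
  have key : ∀ u ∈ F, c ∈ cl (ins F) u := by
    intro u hu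
    by_cases huC : u ∈ C
    · exact cl_mono (ins_mono h1) _ (hC u huC c hc)
    · obtain ⟨e, -, a, b, he, ha, -, hb⟩ := exit (S := Cᶜ) (cl_univ u c) huC (not_not.2 hc)
      rw [univ_inter] at ha
      have hb' : b ∈ C := not_not.1 hb
      have h3 : a ∈ cl (ins F) u := cl_mono (ins_mono (h2 u hu)) _ (con_cl _ u u (self_mem _ _) a ha)
      exact cl_trans (cl_step h3 (he.ins.2 ⟨h2 u hu ha, h1 hb'⟩) he)
        (cl_mono (ins_mono h1) _ (hC b hb' c hc))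
  exact fun a ha b hb => cl_trans (key a ha) (cl_symm (key b hb))

theorem cl_of_mem (h : u ∈ C) : cl (ins Cᶜ) u = {u} :=
  Subset.antisymm (cl_subset rfl fun _ he _ _ h1 _ h2 => absurd (h2 ▸ h) (h1.ins.1 he).1)
    (singleton_subset_iff.2 (self_mem _ _))

theorem subset_fill (C : Set (Zd d)) : C ⊆ fill C := fun u h => by
  rw [fill, mem_ofPred_eq, cl_of_mem h]; exact finite_singleton _

theorem fill_mono (h : S ⊆ C) : fill S ⊆ fill C := fun _ hu =>
  Finite.subset hu (cl_mono (ins_mono (compl_subset_compl.2 h)) _)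

theorem fill_comp (hu : u ∈ fill C) : cl (ins Cᶜ) u ⊆ fill C := fun _ hw => by
  rw [fill, mem_ofPred_eq, cl_eq hw]; exact hu

theorem con_fill (hC : Con C) (hne : C.Nonempty) : Con (fill C) :=
  con_of_comp hC hne (subset_fill C) fun _ => fill_comp

theorem bd_fill (h : e ∈ bd (fill C)) : ∃ a b, Ends e a b ∧ a ∈ C ∧ b ∉ fill C := by
  obtain ⟨a, b, h1, h2, h3⟩ := ends_of_bd h
  refine ⟨a, b, h1, ?_, h3⟩
  by_contra ha
  exact h3 (fill_comp h2 (cl_step (self_mem _ _) (h1.ins.2 ⟨ha, fun hb => h3 (subset_fill C hb)⟩) h1))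

theorem bd_fill_touch : bd (fill C) ⊆ touch C := fun _ h =>
  let ⟨_, _, h1, h2, _⟩ := bd_fill h; h1.touch h2

theorem bd_fill_closed (h : e ∈ bd (fill (cl σ v))) : e ∉ σ := fun he =>
  let ⟨_, _, h1, h2, h3⟩ := bd_fill h; h3 (subset_fill _ (cl_step h2 he h1))

/-- the outside of a large cube around a finite set -/
theorem exists_out (hd2 : 2 ≤ d) (hC : C.Finite) : ∃ O : Set (Zd d), O ⊆ Cᶜ ∧ Oᶜ.Finite ∧
    O.Infinite ∧ Con O := by
  obtain ⟨R, hR⟩ := exists_box hC.toFinset (0 : Zd d)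
  have h1 : (HULL.Out d (R + 1))ᶜ.Finite := by
    refine (box (0 : Zd d) R).finite_toSet.subset fun y hy => mem_box'.2 fun i => ?_
    have : ¬((R : ℤ) + 1 ≤ y i ∨ y i ≤ -((R : ℤ) + 1)) := fun h => hy ⟨i, h⟩
    simp only [Pi.zero_apply]; omega
  have : Nonempty (Fin d) := ⟨⟨0, by omega⟩⟩
  refine ⟨HULL.Out d (R + 1), ?_, h1, infinite_of_finite_compl h1, fun a ha b hb => cl_of_joined
    (HULL.jtrans (HULL.out_corner hd2 _ ha) (HULL.jsymm (HULL.out_corner hd2 _ hb)))⟩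
  rintro y ⟨i, hi⟩ hy
  have := mem_box'.1 (hR (hC.mem_toFinset.2 hy)) i
  simp only [Pi.zero_apply] at this
  omega

theorem fill_finite (hd2 : 2 ≤ d) (hC : C.Finite) : (fill C).Finite := by
  obtain ⟨O, h1, h2, h3, h4⟩ := exists_out hd2 hC
  exact h2.subset fun u hu huO =>
    h3 (Finite.subset hu fun b hb => cl_mono (ins_mono h1) _ (h4 u huO b hb))

theorem con_fill_compl (hd2 : 2 ≤ d) (hC : C.Finite) : Con (fill C)ᶜ := by
  obtain ⟨O, h1, h2, -, h4⟩ := exists_out hd2 hC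
  intro a ha b hb
  obtain ⟨a', ha1, ha2⟩ := Infinite.exists_notMem_finite ha h2
  obtain ⟨b', hb1, hb2⟩ := Infinite.exists_notMem_finite hb h2
  have h5 : b ∈ cl (ins Cᶜ) a := cl_trans ha1
    (cl_trans (cl_mono (ins_mono h1) _ (h4 a' (not_not.1 ha2) b' (not_not.1 hb2))) (cl_symm hb1))
  have h6 : cl (ins Cᶜ) a ⊆ (fill C)ᶜ := fun u hu hu' => ha (fill_comp hu' (cl_symm hu))
  exact cl_mono (ins_mono h6) _ (con_cl _ a a (self_mem _ _) b h5)

/-- a set with finite boundary is finite or cofinite -/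
theorem finite_or (hd2 : 2 ≤ d) (h : (bd S).Finite) : S.Finite ∨ Sᶜ.Finite := by
  obtain ⟨O, h1, h2, -, h4⟩ := exists_out hd2 (h.image Prod.fst)
  have key : ∀ T : Set (Zd d), bd T = bd S → ∀ a ∈ O, a ∈ T → O ⊆ T := by
    intro T hT a ha haT b hb
    refine cl_subset haT (fun e he u w h5 _ hu => ?_) (h4 a ha b hb)
    by_contra hw
    exact h1 he.1 ⟨e, hT ▸ h5.bd hu hw, rfl⟩
  by_cases hO : ∃ a ∈ O, a ∈ S
  · obtain ⟨a, ha, haS⟩ := hO
    exact Or.inr (h2.subset (compl_subset_compl.2 (key S rfl a ha haS)))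
  · exact Or.inl (h2.subset fun a ha haO => hO ⟨a, haO, ha⟩)

/-- star steps inside a set of edges -/
def Nr (K : Set (Ed d)) (e e' : Ed d) : Prop := e ∈ K ∧ e' ∈ K ∧ zd e.1 e'.1 ≤ 1

theorem near_of (h : ∀ j, a j - 1 ≤ b j ∧ b j ≤ a j + 1) : zd a b ≤ 1 := by
  simpa using (zd_le_nat (r := 1) (x := a) (y := b)).2 (by simpa using h)

theorem near_coord (h : zd a b ≤ 1) (j : Fin d) : a j - 1 ≤ b j ∧ b j ≤ a j + 1 := by
  simpa using (zd_le_nat (r := 1) (x := a) (y := b)).1 (by simpa using h) j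

/-- the boundary of a connected set with connected complement is star-connected -/
theorem bd_star (h1 : Con F) (h2 : Con Fᶜ) {e e' : Ed d} (he : e ∈ bd F) (he' : e' ∈ bd F) :
    ReflTransGen (Nr (bd F)) e e' := by
  classical
  let P : Set (Ed d) := {f | f ∈ bd F ∧ ReflTransGen (Nr (bd F)) e f}
  let χ : Zd d → ZMod 2 := fun x => if x ∈ F then 1 else 0
  have hχ : ∀ f : Ed d, (if f ∈ bd F then (1 : ZMod 2) else 0) = χ (hd f) - χ f.1 := by
    intro f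
    by_cases a1 : f.1 ∈ F <;> by_cases a2 : hd f ∈ F <;> simp [χ, bd, a1, a2]
  obtain ⟨g, hg⟩ := CUT.exact (A := ZMod 2) (fun x i => if (x, i) ∈ P then 1 else 0) (by
    intro x i j hij
    have q : ∀ y ∈ ({x, x + Pi.single i 1, x + Pi.single j 1} : Set (Zd d)), y ∈ CUT.Q x := by
      rintro y (rfl | rfl | rfl) l <;> (try simp only [Pi.add_apply, Pi.single_apply]) <;>
        (try split_ifs) <;> omega
    by_cases hP : ∃ f ∈ P, f.1 ∈ CUT.Q x
    · obtain ⟨f, hf, hfx⟩ := hP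
      have : ∀ y l, y ∈ CUT.Q x → ((y, l) ∈ P ↔ (y, l) ∈ bd F) := fun y l hy =>
        ⟨fun h => h.1, fun h => ⟨h, hf.2.tail ⟨hf.1, h, CUT.Q_zd hfx hy⟩⟩⟩
      simp only [this _ _ (q x (by simp)), this _ _ (q (x + Pi.single i 1) (by simp)),
        this _ _ (q (x + Pi.single j 1) (by simp)), hχ, hd, add_right_comm x (Pi.single j 1)]
      ring
    · have : ∀ y l, y ∈ CUT.Q x → (y, l) ∉ P := fun y l hy h => hP ⟨_, h, hy⟩
      simp only [this _ _ (q x (by simp)), this _ _ (q (x + Pi.single i 1) (by simp)),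
        this _ _ (q (x + Pi.single j 1) (by simp)), if_false])
  have hg' : ∀ f : Ed d, g (hd f) = g f.1 + if f ∈ P then 1 else 0 := fun f => hg f.1 f.2
  have cst : ∀ T : Set (Zd d), bd T = bd F → Con T → ∀ a ∈ T, ∀ b ∈ T, g b = g a := by
    intro T hT hc a ha b hb
    refine cl_subset (S := {u | g u = g a}) rfl (fun f hf u w h3 _ hu => ?_) (hc a ha b hb)
    have hn : f ∉ P := fun h => (hT ▸ h.1 : f ∈ bd T) ⟨fun _ => hf.2, fun _ => hf.1⟩
    have := hg' f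
    rw [if_neg hn, add_zero] at this
    rcases h3 with ⟨rfl, rfl⟩ | ⟨rfl, rfl⟩
    exacts [this.trans hu, this.symm.trans hu]
  have c1 := cst F rfl h1
  have c2 := cst Fᶜ (bd_compl F) h2
  by_contra hn
  have e1 := hg' e
  have e2 := hg' e'
  rw [if_pos ⟨he, ReflTransGen.refl⟩] at e1
  rw [if_neg fun h => hn h.2, add_zero] at e2
  obtain ⟨a, b, h3, ha, hb⟩ := ends_of_bd he
  obtain ⟨a', b', h4, ha', hb'⟩ := ends_of_bd he'
  have e3 : g a' = g b' := by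
    rcases h4 with ⟨rfl, rfl⟩ | ⟨rfl, rfl⟩
    exacts [e2.symm, e2]
  have e4 : g a = g b := by rw [c1 a' ha' a ha, c2 b' hb' b hb, e3]
  rcases h3 with ⟨rfl, rfl⟩ | ⟨rfl, rfl⟩ <;> rw [e1] at e4 <;> simp at e4

end Pool.Agent.Lib.FP
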