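import Pool.Agent.Lib.FP.Core
import Pool.Agent.Lib.FP.Defs

/-! Transfer to the passage time. -/

open Set MeasureTheory
open scoped NNReal ENNReal

namespace Pool.Agent.Lib.FP

open Pool.Agent.TPC Pool.Agent.Lib.MP_81a99a_pr

variable {d : ℕ} {τ : (lattice d).edgeSet → ℝ≥0} {a b : Zd d} {e : Ed d}

def edgeOf (e : Ed d) : (lattice d).edgeSet := ⟨s(e.1, hd e), lattice_adj_add e.1 e.2⟩

theorem edgeOf_inj : Function.Injective (edgeOf : Ed d → _) := by
  rintro e e' h
  have a1 := hd_apply e e.2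
  have a2 := hd_apply e' e.2
  rcases Sym2.eq_iff.1 (congrArg Subtype.val h) with ⟨h1, h2⟩ | ⟨h1, h2⟩ <;> rw [h1, h2] at a1 <;>
    split_ifs at a1 a2 with h3 h4 <;> first | exact Prod.ext h1 h4 | omega

theorem Ends.adj (h : Ends e a b) : (lattice d).Adj a b := by
  rcases h with ⟨rfl, rfl⟩ | ⟨rfl, rfl⟩
  exacts [lattice_adj_add _ _, (lattice_adj_add _ _).symm]

theorem Ends.edge (h : Ends e a b) : edgeOf e = ⟨s(a, b), h.adj⟩ := by
  rcases h with ⟨rfl, rfl⟩ | ⟨rfl, rfl⟩
  exacts [rfl, Subtype.ext Sym2.eq_swap]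

instance (u : Zd d) : Nonempty ((lattice d).Walk 0 u) :=
  cl_subset (S := {u | (lattice d).Reachable 0 u}) .rfl
    (fun _ _ _ _ h _ h' => h'.trans h.adj.reachable) (cl_univ 0 u)

theorem pass_step (h : Ends e a b) : passageTime τ 0 b ≤ passageTime τ 0 a + τ (edgeOf e) := by
  rw [← tsub_le_iff_right, h.edge]
  refine le_ciInf fun w => tsub_le_iff_right.2
    ((ciInf_le (OrderBot.bddBelow _) (w.concat h.adj)).trans (le_of_eq ?_))
  simp [SimpleGraph.Walk.darts_concat]

theorem pass_cc (h : b ∈ cc a (τ ∘ edgeOf)) : passageTime τ 0 b ≤ passageTime τ 0 a :=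
  cl_subset (S := {u | passageTime τ 0 u ≤ passageTime τ 0 a}) (le_refl (passageTime τ 0 a))
    (fun e he _ _ h1 _ h2 => (pass_step h1).trans
      (by rwa [show τ (edgeOf e) = 0 from he, add_zero])) h

theorem pot_le (ψ : Zd d → ℝ≥0) (hψ : ∀ e a b, Ends e a b → ψ b ≤ ψ a + τ (edgeOf e)) {u v : Zd d}
    (w : (lattice d).Walk u v) :
    ψ v ≤ ψ u + (w.darts.map fun a => τ ⟨a.edge, a.edge_mem⟩).sum := by
  induction w with
  | nil => simp
  | cons h p ih =>
    obtain ⟨e, he⟩ := ends_of_adj h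
    have := hψ _ _ _ he
    rw [he.edge] at this
    simp only [SimpleGraph.Walk.darts_cons, List.map_cons, List.sum_cons, ← add_assoc]
    exact ih.trans (add_le_add_left this _)

theorem long_iff (h : ∀ e, τ e ∈ ({0, 1, 2} : Set ℝ≥0)) :
    1 < passageTime τ 0 b ↔ τ ∘ edgeOf ∈ Long 0 b := by
  classical
  have h0 : passageTime τ 0 0 ≤ 0 :=
    (ciInf_le (OrderBot.bddBelow _) SimpleGraph.Walk.nil).trans (by simp)
  refine ⟨fun h1 => ?_, fun h1 => one_lt_two.trans_le (le_ciInf fun w => ?_)⟩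
  · have h2 : b ∉ cc 0 (τ ∘ edgeOf) := fun h => h1.not_ge ((pass_cc h).trans (h0.trans zero_le))
    refine ⟨h2, fun e he h3 h4 => h1.not_ge ?_⟩
    obtain ⟨s, z, h5, hs, hz⟩ := ends_both (cl_disj h2) h3 h4
    refine (pass_cc (cl_symm hz)).trans ((pass_step h5).trans ?_)
    rw [show τ (edgeOf e) = 1 from he, le_zero_iff.1 ((pass_cc hs).trans h0), zero_add]
  have := pot_le (τ := τ) (fun u => if u ∈ cc 0 (τ ∘ edgeOf) then 0 else
    if u ∈ cc b (τ ∘ edgeOf) then 2 else 1) (fun e u z he => ?_) w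
  · simpa [h1.1, show ∀ v, v ∈ cc v (τ ∘ edgeOf) from self_mem _] using this
  rcases h (edgeOf e) with h2 | h2 | h2
  · have : ∀ v, z ∈ cc v (τ ∘ edgeOf) ↔ u ∈ cc v (τ ∘ edgeOf) := fun v =>
      ⟨fun h => cl_step h h2 he.symm, fun h => cl_step h h2 he⟩
    simp [this]
  · have := fun h3 h4 => h1.2 e h2 (he.touch h3) (he.symm.touch h4)
    rw [h2]
    split_ifs <;> first | tauto | norm_num
  · rw [h2]
    split_ifs <;> first | exact zero_le | exact le_add_self | exact one_le_two.trans le_add_self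

theorem transfer (F : Measure ℝ≥0) [IsProbabilityMeasure F] (hF : F {0, 1, 2}ᶜ = 0) (b : Zd d) :
    (Measure.infinitePi fun _ : (lattice d).edgeSet => F) {τ | 1 < passageTime τ 0 b} =
      PP d F (Long 0 b) := by
  rw [PP, ← Measure.map_infinitePi_infinitePi_of_inj (P := fun _ => F) edgeOf_inj,
    Measure.map_apply (by fun_prop) meas_long]
  refine measure_congr ?_
  filter_upwards [ae_all_iff.2 fun e =>
    (measurePreserving_eval_infinitePi (fun _ => F) e).quasiMeasurePreserving.ae hF] with τ h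
  exact propext (long_iff h)

theorem main (h3 : 3 ≤ d) (i : Fin d) :
    ∃ (p ε η : ℝ≥0) (F : Measure ℝ≥0) (_ : IsProbabilityMeasure F), 0 < p ∧ 0 < ε ∧ 0 < η ∧
      F = p • Measure.dirac 0 + ε • Measure.dirac 1 + η • Measure.dirac 2 ∧
      ∀ N : ℕ, ∃ n : ℕ, N ≤ n ∧
        (Measure.infinitePi fun _ : (lattice d).edgeSet => F)
            {τ | 1 < passageTime τ 0 (Pi.single i ((n : ℤ) + 1))} <
          (Measure.infinitePi fun _ : (lattice d).edgeSet => F)
            {τ | 1 < passageTime τ 0 (Pi.single i (n : ℤ))} := by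
  obtain ⟨q, r, h1, h2, h4, h5, H⟩ := core h3 i
  have e : (1 - r) * q + r * q = q := by rw [← add_mul, tsub_add_cancel_of_le h5.le, one_mul]
  have : IsProbabilityMeasure ((1 - q) • Measure.dirac (0 : ℝ≥0) +
      ((1 - r) * q) • Measure.dirac 1 + (r * q) • Measure.dirac 2) := ⟨by
    simp only [Measure.add_apply, Measure.smul_apply, measure_univ, ENNReal.smul_def, smul_eq_mul,
      mul_one]
    norm_cast
    rw [add_assoc, e, tsub_add_cancel_of_le h2.le]⟩
  refine ⟨_, _, _, _, this, tsub_pos_of_lt h2, mul_pos (tsub_pos_of_lt h5) h1, mul_pos h4 h1, rfl,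
    fun N => ?_⟩
  have t := @transfer d _ this (by simp)
  simp only [t]
  refine H _ ?_ (by simp) N
  conv_rhs => rw [← e]
  simp

end Pool.Agent.Lib.FP
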