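import Pool.Agent.Lib.FP.Comb

/-! Independence, resampling and decomposition over finite clusters. -/

open Set Relation MeasureTheory ProbabilityTheory
open scoped NNReal ENNReal

namespace Pool.Agent.Lib.FP

open Pool.Agent.TPC

variable {d : ℕ}

abbrev Om (d : ℕ) := Ed d → ℝ≥0

noncomputable def PP (d : ℕ) (F : Measure ℝ≥0) : Measure (Om d) :=
  Measure.infinitePi fun _ : Ed d => F

instance (F : Measure ℝ≥0) [IsProbabilityMeasure F] : IsProbabilityMeasure (PP d F) := by
  unfold PP; infer_instance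

def op (τ : Om d) : Set (Ed d) := {e | τ e = 0}

def Dep (A : Set (Ed d)) (X : Set (Om d)) : Prop :=
  ∀ τ τ', (∀ e ∈ A, τ e = τ' e) → τ ∈ X → τ' ∈ X

def cyl (O : Finset (Ed d)) (s : Set ℝ≥0) : Set (Om d) := {τ | ∀ e ∈ O, τ e ∈ s}

variable {F : Measure ℝ≥0} [IsProbabilityMeasure F] {A B : Set (Ed d)} {X Y : Set (Om d)}
  {s t : Set ℝ≥0} {a b : Zd d} {g h : Om d → Set (Zd d)}

theorem Dep.mono (h : Dep A X) (h' : A ⊆ B) : Dep B X :=
  fun τ τ' h1 => h τ τ' fun e he => h1 e (h' he)

theorem Dep.inter (h : Dep A X) (h' : Dep A Y) : Dep A (X ∩ Y) :=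
  fun τ τ' h1 h2 => ⟨h τ τ' h1 h2.1, h' τ τ' h1 h2.2⟩

theorem dep_cyl (O : Finset (Ed d)) (s : Set ℝ≥0) : Dep O (cyl O s) :=
  fun _ _ h1 h2 e he => h1 e he ▸ h2 e he

theorem dep_op {Z : Set (Set (Ed d))} (f : Set (Ed d) → Set (Ed d)) :
    Dep A {τ | f (op τ ∩ A) ∈ Z} := fun τ τ' h1 h2 => by
  have : op τ' ∩ A = op τ ∩ A := by
    ext e; exact and_congr_left fun he => by simp [op, h1 e he]
  simpa [this] using h2

theorem meas_cyl (O : Finset (Ed d)) (hs : MeasurableSet s) : MeasurableSet (cyl O s) :=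
  measurableSet_setOfPred.2 <| Measurable.forall fun e => measurable_const.imp
    (measurableSet_setOfPred.1 (measurable_pi_apply e hs))

theorem P_cyl (O : Finset (Ed d)) (hs : MeasurableSet s) : PP d F (cyl O s) = F s ^ O.card := by
  rw [← Finset.prod_const, ← Measure.infinitePi_pi (fun _ : Ed d => F) fun _ _ => hs]; rfl

theorem indep (hX : Dep A X) (hY : Dep B Y) (h : Disjoint A B) (mX : MeasurableSet X)
    (mY : MeasurableSet Y) : PP d F (X ∩ Y) = PP d F X * PP d F Y := by
  classical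
  have hi : iIndepFun (fun (e : Ed d) (τ : Om d) => τ e) (PP d F) :=
    iIndepFun_infinitePi (X := fun _ x => x) fun _ => measurable_id
  have key : ∀ {A X}, Dep A X → MeasurableSet X → MeasurableSet[⨆ e ∈ A,
      MeasurableSpace.comap (fun τ : Om d => τ e) inferInstance] X := by
    intro A X hX mX
    have e1 : X = (fun τ e => if e ∈ A then τ e else 0) ⁻¹' X :=
      Subset.antisymm (fun τ hτ => hX _ _ (fun e he => by simp [he]) hτ)
        fun τ hτ => hX _ _ (fun e he => by simp [he]) hτ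
    rw [e1]
    refine @measurable_pi_lambda _ _ _ (id _) _ _ (fun e => ?_) _ mX
    by_cases he : e ∈ A
    · simp only [he, if_true]
      exact Measurable.of_comap_le (le_iSup₂_of_le e he le_rfl)
    · simp only [he, if_false]; exact measurable_const
  exact (Indep_iff _ _ _).1 (indep_iSup_of_disjoint
    (fun e => (measurable_pi_apply e).comap_le) hi.iIndep h) X Y (key hX mX) (key hY mY)

theorem resample (O : Finset (Ed d)) (hs : MeasurableSet s) (hX : Dep (↑O)ᶜ X)
    (mX : MeasurableSet X) : PP d F (cyl O s ∩ X) = F s ^ O.card * PP d F X := by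
  rw [indep (dep_cyl O s) hX disjoint_compl_right (meas_cyl O hs) mX, P_cyl O hs]

theorem resample2 {O N : Finset (Ed d)} (h : Disjoint O N) (hs : MeasurableSet s)
    (ht : MeasurableSet t) (hX : Dep (↑O ∪ ↑N)ᶜ X) (mX : MeasurableSet X) :
    PP d F (cyl O s ∩ (cyl N t ∩ X)) = F s ^ O.card * (F t ^ N.card * PP d F X) := by
  rw [resample O hs (((dep_cyl N t).mono (Finset.disjoint_coe.2 h).subset_compl_left).inter
    (hX.mono (compl_subset_compl.2 subset_union_left))) ((meas_cyl N ht).inter mX),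
    resample N ht (hX.mono (compl_subset_compl.2 subset_union_right)) mX]

theorem meas_op : Measurable (op : Om d → Set (Ed d)) := measurable_set_iff.2 fun e =>
  measurableSet_setOfPred.1 (measurable_pi_apply e (measurableSet_singleton 0))

theorem meas_cl (v : Zd d) : Measurable fun σ : Set (Ed d) => cl σ v := by
  let R : ℕ → Set (Ed d) → Set (Zd d) := fun n σ =>
    Nat.rec {v} (fun _ S => {b | ∃ a, a ∈ S ∧ ∃ e, e ∈ σ ∧ Ends e a b}) n
  have h1 : ∀ n u, Measurable fun σ => u ∈ R n σ := by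
    intro n
    induction n with
    | zero => exact fun _ => measurable_const
    | succ n ih =>
      exact fun u => Measurable.exists fun a => (ih a).and
        (Measurable.exists fun e => (measurable_set_mem e).and measurable_const)
  have h2 : ∀ σ u, u ∈ cl σ v ↔ ∃ n, u ∈ R n σ := by
    refine fun σ u => ⟨fun h => ?_, fun ⟨n, h⟩ => ?_⟩
    · induction h with
      | refl => exact ⟨0, rfl⟩
      | tail _ h ih => exact ih.elim fun n hn => ⟨n + 1, _, hn, h⟩
    · induction n generalizing u with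
      | zero => exact h ▸ self_mem _ _
      | succ n ih => exact let ⟨a, h1, _, h2, h3⟩ := h; cl_step (ih a ⟨_, h1⟩ h1) h2 h3
  exact measurable_set_iff.2 fun u => by
    simp only [h2]; exact Measurable.exists fun n => h1 n u

theorem meas_mod (N O : Set (Ed d)) : Measurable fun τ : Om d => (op τ ∩ N) ∪ O :=
  measurable_set_iff.2 fun e =>
    ((measurable_set_iff.1 meas_op e).and measurable_const).or measurable_const

theorem meas_int (N : Set (Ed d)) : Measurable fun τ : Om d => op τ ∩ N :=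
  measurable_set_iff.2 fun e => (measurable_set_iff.1 meas_op e).and measurable_const

theorem meas_pair {Ω : Type} [MeasurableSpace Ω] {g h : Ω → Set (Zd d)} (mg : Measurable g)
    (mh : Measurable h) (Φ : Set (Zd d) → Set (Zd d) → Prop) :
    MeasurableSet {τ | (g τ).Finite ∧ (h τ).Finite ∧ Φ (g τ) (h τ)} :=
  mg.prodMk mh (t := {p | p.1.Finite ∧ p.2.Finite ∧ Φ p.1 p.2})
    ((Countable.ofPred_finite.prod Countable.ofPred_finite).mono
      fun _ h => mem_prod.2 ⟨h.1, h.2.1⟩).measurableSet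

theorem meas_one {Ω : Type} [MeasurableSpace Ω] {g : Ω → Set (Zd d)} (mg : Measurable g)
    (Φ : Set (Zd d) → Prop) : MeasurableSet {τ | (g τ).Finite ∧ Φ (g τ)} :=
  mg (t := {p | p.Finite ∧ Φ p}) (Countable.ofPred_finite.mono fun _ h => h.1).measurableSet

theorem meas_W : MeasurableSet (W a b) := meas_one (meas_cl a) (b ∈ ·)

theorem meas_J : MeasurableSet (J a b) := by
  have : J a b = {σ | (cl σ a).Finite ∧ (cl σ b).Finite ∧ b ∉ cl σ a ∧
    (touch (cl σ a) ∩ touch (cl σ b)).Nonempty} := rfl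
  exact meas_pair (meas_cl a) (meas_cl b) fun S D => b ∉ S ∧ (touch S ∩ touch D).Nonempty

theorem meas_Je (e : Ed d) : MeasurableSet (Je a b e) :=
  meas_pair (meas_cl a) (meas_cl b) fun S D => b ∉ S ∧ e ∈ touch S ∩ touch D

theorem meas_Sp (o : Fin d) {Z : Set (Set (Ed d))} (mZ : MeasurableSet Z)
    (hZ : ∀ σ ∈ Z, (cl σ a).Finite ∧ (cl σ b).Finite) : MeasurableSet (Z ∩ Sp o a b) := by
  convert mZ.inter (meas_pair (meas_cl a) (meas_cl b) (Sep o)) using 1
  exact Subset.antisymm (fun σ h => ⟨h.1, (hZ σ h.1).1, (hZ σ h.1).2, h.2⟩)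
    fun σ h => ⟨h.1, h.2.2.2⟩

def ev (g : Om d → Set (Zd d)) (S : Finset (Zd d)) : Set (Om d) := {τ | g τ = S}

def fin (g : Om d → Set (Zd d)) : Set (Om d) := {τ | (g τ).Finite}

theorem meas_ev (mg : Measurable g) (S : Finset (Zd d)) : MeasurableSet (ev g S) :=
  mg (measurableSet_singleton _)

theorem meas_fin (mg : Measurable g) : MeasurableSet (fin g) := mg .setOfPred_finite

omit [IsProbabilityMeasure F] in
theorem dec (mg : Measurable g) (mX : MeasurableSet X) (hX : X ⊆ fin g) :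
    PP d F X = ∑' S, PP d F (X ∩ ev g S) := by
  rw [← measure_iUnion (fun S S' hS => disjoint_left.2 fun _ h1 h2 =>
    hS (Finset.coe_injective (h1.2.symm.trans h2.2))) fun S => mX.inter (meas_ev mg S)]
  congr 1
  exact Subset.antisymm (fun τ hτ => mem_iUnion.2 ⟨(hX hτ).toFinset, hτ, (hX hτ).coe_toFinset.symm⟩)
    (iUnion_subset fun _ => inter_subset_left)

omit [IsProbabilityMeasure F] in
theorem dec2 (mg : Measurable g) (mh : Measurable h) (mX : MeasurableSet X) (h1 : X ⊆ fin g)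
    (h2 : X ⊆ fin h) : PP d F X =
      ∑' p : Finset (Zd d) × Finset (Zd d), PP d F (X ∩ (ev g p.1 ∩ ev h p.2)) := by
  rw [dec mg mX h1, ENNReal.tsum_prod']
  refine tsum_congr fun S => ?_
  rw [dec mh (mX.inter (meas_ev mg S)) (inter_subset_left.trans h2)]
  simp only [inter_assoc]

omit [IsProbabilityMeasure F] in
theorem dec_mul (mg : Measurable g) (mh : Measurable h) (mX : MeasurableSet X)
    (mY : MeasurableSet Y) (h1 : X ⊆ fin g) (h2 : Y ⊆ fin h) : PP d F X * PP d F Y =
      ∑' p : Finset (Zd d) × Finset (Zd d), PP d F (X ∩ ev g p.1) * PP d F (Y ∩ ev h p.2) := by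
  rw [dec mg mX h1, dec mh mY h2, ENNReal.tsum_prod', ← ENNReal.tsum_mul_right]
  simp only [ENNReal.tsum_mul_left]

theorem fin_ev (g : Om d → Set (Zd d)) (S : Finset (Zd d)) : fin g ∩ ev g S = ev g S :=
  inter_eq_right.2 fun _ h => by rw [fin, mem_ofPred_eq, h]; exact S.finite_toSet

/-- measurable and determined by the edges touching its value -/
def Loc (g : Om d → Set (Zd d)) : Prop := Measurable g ∧ ∀ S : Finset (Zd d), Dep (touch S) (ev g S)

def Inter (g h : Om d → Set (Zd d)) : Set (Om d) :=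
  {τ | (g τ).Finite ∧ (h τ).Finite ∧ (touch (g τ) ∩ touch (h τ)).Nonempty}

theorem both_le (hg : Loc g) (hh : Loc h) :
    PP d F (fin g ∩ fin h) ≤ PP d F (fin g) * PP d F (fin h) + PP d F (Inter g h) := by
  have mI : MeasurableSet (Inter g h) := meas_pair hg.1 hh.1 fun S D => (touch S ∩ touch D).Nonempty
  rw [dec2 hg.1 hh.1 ((meas_fin hg.1).inter (meas_fin hh.1)) inter_subset_left inter_subset_right,
    dec_mul hg.1 hh.1 (meas_fin hg.1) (meas_fin hh.1) Subset.rfl Subset.rfl,
    dec2 hg.1 hh.1 mI (fun _ h => h.1) (fun _ h => h.2.1), ← ENNReal.tsum_add]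
  refine ENNReal.tsum_le_tsum fun p => ?_
  by_cases hp : Disjoint (touch (p.1 : Set (Zd d))) (touch p.2)
  · rw [fin_ev, fin_ev, ← indep (hg.2 _) (hh.2 _) hp (meas_ev hg.1 _) (meas_ev hh.1 _)]
    exact le_add_right (measure_mono inter_subset_right)
  · refine le_add_left (measure_mono fun τ hτ => ⟨⟨hτ.1.1, hτ.1.2, ?_⟩, hτ.2⟩)
    rw [hτ.2.1, hτ.2.2]
    exact not_disjoint_iff_nonempty_inter.1 hp

def far (g : Om d → Set (Zd d)) (a : Zd d) (R : ℕ) : Set (Om d) :=
  {τ | (g τ).Finite ∧ ¬g τ ⊆ box a R}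

theorem apart (o : Fin d) {R : ℕ} (hR : a o + 2 * R + 1 < b o) {S D : Set (Zd d)}
    (hS : S ⊆ box a R) (hD : D ⊆ box b R) : Disjoint (touch S) (touch D) := by
  refine disjoint_left.2 fun e h1 h2 => ?_
  have := hd_apply e o
  rcases h1 with h1 | h1 <;> rcases h2 with h2 | h2 <;>
    have a1 := mem_box'.1 (hS h1) o <;> have a2 := mem_box'.1 (hD h2) o <;>
    split_ifs at this <;> omega

omit [IsProbabilityMeasure F] in
theorem inter_le (o : Fin d) {R : ℕ} (hR : a o + 2 * R + 1 < b o) :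
    PP d F (Inter g h) ≤ PP d F (far g a R) + PP d F (far h b R) := by
  refine (measure_mono fun τ hτ => ?_).trans (measure_union_le _ _)
  by_contra hn
  simp only [mem_union, far, mem_ofPred_eq, hτ.1, hτ.2.1, true_and, not_or, not_not] at hn
  exact not_disjoint_iff_nonempty_inter.2 hτ.2.2 (apart o hR hn.1 hn.2)

theorem le_both (o : Fin d) {R : ℕ} (hR : a o + 2 * R + 1 < b o ∨ b o + 2 * R + 1 < a o)
    (hg : Loc g) (hh : Loc h) : PP d F (fin g) * PP d F (fin h) ≤
      PP d F (fin g ∩ fin h) + (PP d F (far g a R) + PP d F (far h b R)) := by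
  have m1 : MeasurableSet (far g a R) := meas_one hg.1 fun S => ¬S ⊆ box a R
  have m2 : MeasurableSet (far h b R) := meas_one hh.1 fun S => ¬S ⊆ box b R
  refine le_trans ?_ (add_le_add_right (add_le_add
    (mul_le_of_le_one_right' (prob_le_one (μ := PP d F) (s := fin h)))
    (mul_le_of_le_one_left' (prob_le_one (μ := PP d F) (s := fin g)))) _)
  rw [dec2 hg.1 hh.1 ((meas_fin hg.1).inter (meas_fin hh.1)) inter_subset_left inter_subset_right,
    dec_mul hg.1 hh.1 (meas_fin hg.1) (meas_fin hh.1) Subset.rfl Subset.rfl,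
    dec_mul hg.1 hh.1 m1 (meas_fin hh.1) (fun _ h => h.1) Subset.rfl,
    dec_mul hg.1 hh.1 (meas_fin hg.1) m2 Subset.rfl (fun _ h => h.1), ← ENNReal.tsum_add,
    ← ENNReal.tsum_add]
  refine ENNReal.tsum_le_tsum fun p => ?_
  have k : ∀ (g : Om d → Set (Zd d)) a (S : Finset (Zd d)), ¬(S : Set (Zd d)) ⊆ box a R →
      far g a R ∩ ev g S = ev g S := fun g a S hS => inter_eq_right.2 fun τ hτ => by
    rw [far, mem_ofPred_eq, hτ]; exact ⟨S.finite_toSet, hS⟩
  simp only [fin_ev]
  by_cases h1 : (p.1 : Set (Zd d)) ⊆ box a R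
  · by_cases h2 : (p.2 : Set (Zd d)) ⊆ box b R
    · rw [← indep (hg.2 _) (hh.2 _) (hR.elim (fun hR => apart o hR h1 h2)
        fun hR => (apart o hR h2 h1).symm) (meas_ev hg.1 _) (meas_ev hh.1 _)]
      exact le_add_right (measure_mono fun τ hτ =>
        ⟨⟨((fin_ev g _).ge hτ.1).1, ((fin_ev h _).ge hτ.2).1⟩, hτ⟩)
    · rw [k h b _ h2]; exact le_add_left le_add_self
  · rw [k g a _ h1]; exact le_add_left le_self_add

theorem far_tendsto (mg : Measurable g) (a : Zd d) :
    Filter.Tendsto (fun R => PP d F (far g a R)) Filter.atTop (nhds 0) := by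
  have := tendsto_measure_iInter_atTop (μ := PP d F) (s := far g a)
    (fun R => (meas_one mg fun S => ¬S ⊆ box a R).nullMeasurableSet)
    (fun R R' hR τ hτ => ⟨hτ.1, fun h => hτ.2 (h.trans (box_mono a hR))⟩) ⟨0, measure_ne_top _ _⟩
  rwa [eq_empty_of_forall_notMem (s := ⋂ R, far g a R) fun τ hτ => ?_, measure_empty] at this
  obtain ⟨R, hR⟩ := exists_box (mem_iInter.1 hτ 0).1.toFinset a
  exact (mem_iInter.1 hτ R).2 fun u hu => hR ((mem_iInter.1 hτ 0).1.mem_toFinset.2 hu)

/-- open cluster -/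
def cc (v : Zd d) (τ : Om d) : Set (Zd d) := cl (op τ) v

/-- open edges and light edges of the outer boundary -/
def Uo (v : Zd d) (τ : Om d) : Set (Ed d) := op τ ∪ ({e | τ e = 1} ∩ bd (fill (cc v τ)))

def UU (v : Zd d) (τ : Om d) : Set (Zd d) := cl (Uo v τ) v

theorem cc_sub (v : Zd d) (τ : Om d) : cc v τ ⊆ UU v τ := cl_mono subset_union_left _

theorem cc_congr {τ τ' : Om d} (h : ∀ e ∈ touch (cc a τ), τ e = τ' e) : cc a τ' = cc a τ :=
  cl_congr fun e he => by simp [op, h e he]

theorem loc_cc (v : Zd d) : Loc (cc v) :=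
  ⟨(meas_cl v).comp meas_op, fun _ _ _ h1 h2 => (cc_congr (by rwa [h2])).trans h2⟩

theorem loc_UU (v : Zd d) : Loc (UU v) := by
  constructor
  · have m1 := measurable_set_iff.1 (loc_cc v).1
    have m2 : ∀ u, Measurable fun τ => u ∈ fill (cc v τ) := fun u =>
      measurableSet_setOfPred.1 (((meas_cl u).comp (f := fun τ => ins (cc v τ)ᶜ)
        (measurable_set_iff.2 fun e => (m1 _).not.and (m1 _).not)) .setOfPred_finite)
    exact (meas_cl v).comp (measurable_set_iff.2 fun e => (measurable_set_iff.1 meas_op e).or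
      ((measurableSet_setOfPred.1 (measurable_pi_apply e (measurableSet_singleton 1))).and
        ((m2 _).iff (m2 _)).not))
  · intro S τ τ' h1 h2
    rw [← show UU v τ = S from h2] at h1
    have e1 := cc_congr fun e he => h1 e (touch_mono (cc_sub v τ) he)
    exact (cl_congr fun e he => by simp [Uo, op, e1, h1 e he]).trans h2

end Pool.Agent.Lib.FP
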