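import Pool.Agent.Lib.FP.Geo
import Pool.Agent.Lib.TPC.B_WALK
import Pool.Agent.Lib.TPC.B_SEQ

/-! Rooted edge sets, their number, and boundary edges in a lattice plane. -/

open Set Relation
open scoped NNReal ENNReal

namespace Pool.Agent.Lib.FP

open Pool.Agent.TPC

variable {d : ℕ} {σ : Set (Ed d)} {a b u v : Zd d} {F C : Set (Zd d)}

def Rooted (v : Zd d) (K : Finset (Ed d)) : Prop :=
  ∃ Γ : Finset (Zd d), StarConn Γ ∧ v ∈ Γ ∧ Γ.card ≤ (d * 3 ^ d + 2) * K.card ∧ ∀ e ∈ K, e.1 ∈ Γ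

abbrev Fam (v : Zd d) (k : ℕ) := {K : Finset (Ed d) // Rooted v K ∧ k ≤ K.card}

theorem peierls (d : ℕ) : ∃ M : ℝ≥0, 1 ≤ M ∧ ∀ (v : Zd d) (s : ℝ≥0) (k : ℕ), M * s ≤ 1 / 2 →
    ∑' K : Fam v k, (s : ℝ≥0∞) ^ K.1.card ≤ (2 * (M * s) ^ k : ℝ≥0) := by
  classical
  obtain ⟨C, hC, H⟩ := st_ANI st_SEQ st_WALK d
  lift C to ℝ≥0 using zero_le_one.trans hC
  have hC1 : 1 ≤ C := by exact_mod_cast hC
  set c := d * 3 ^ d + 2
  have h2 : (1 : ℝ≥0) ≤ 2 ^ d * C := one_le_mul_of_one_le_of_one_le (one_le_pow₀ one_le_two) hC1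
  refine ⟨(2 * (2 ^ d * C)) ^ c, one_le_pow₀ (one_le_mul_of_one_le_of_one_le one_le_two h2),
    fun v s k hs => ?_⟩
  set M := (2 * (2 ^ d * C)) ^ c
  choose G hG h1 h3 using H v
  let T : ℕ → Finset (Finset (Ed d)) := fun k => (Finset.range (c * k + 1)).biUnion fun t =>
    (G t).biUnion fun Γ => (Γ ×ˢ Finset.univ).powerset
  have hT : ∀ k, ((T k).card : ℝ≥0) ≤ M ^ k := by
    intro k
    have a1 : ∀ t ∈ Finset.range (c * k + 1), (((G t).biUnion fun Γ =>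
        (Γ ×ˢ (Finset.univ : Finset (Fin d))).powerset).card : ℝ≥0) ≤ (2 ^ d * C) ^ (c * k) := by
      intro t ht
      have a2 := Finset.card_biUnion_le_card_mul (G t) (fun Γ =>
        (Γ ×ˢ (Finset.univ : Finset (Fin d))).powerset) (2 ^ (d * t)) fun Γ hΓ => by
          simp [(h1 t Γ hΓ).1, mul_comm]
      have a3 : ((G t).card : ℝ≥0) ≤ C ^ t := by exact_mod_cast hG t
      calc _ ≤ ((G t).card : ℝ≥0) * 2 ^ (d * t) := by exact_mod_cast a2
        _ ≤ C ^ t * 2 ^ (d * t) := by gcongr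
        _ = (2 ^ d * C) ^ t := by rw [pow_mul, mul_pow, mul_comm]
        _ ≤ _ := pow_le_pow_right₀ h2 (by simpa [Nat.lt_succ_iff] using ht)
    calc ((T k).card : ℝ≥0) ≤ ∑ t ∈ Finset.range (c * k + 1), (((G t).biUnion fun Γ =>
        (Γ ×ˢ (Finset.univ : Finset (Fin d))).powerset).card : ℝ≥0) := by
          exact_mod_cast Finset.card_biUnion_le
      _ ≤ ((c * k + 1 : ℕ) : ℝ≥0) * (2 ^ d * C) ^ (c * k) := by
          simpa using Finset.sum_le_card_nsmul _ _ _ a1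
      _ ≤ 2 ^ (c * k) * (2 ^ d * C) ^ (c * k) := by
          gcongr
          exact_mod_cast Nat.lt_two_pow_self
      _ = M ^ k := by rw [← mul_pow, pow_mul]
  have hm : ∀ K : Fam v k, K.1 ∈ T (k + (K.1.card - k)) := by
    rintro ⟨K, ⟨Γ, g1, g2, g3, g4⟩, hk⟩
    simp only [Nat.add_sub_cancel' hk, T, Finset.mem_biUnion, Finset.mem_range,
      Finset.mem_powerset]
    exact ⟨Γ.card, Nat.lt_succ_of_le g3, Γ, h3 _ Γ g1 g2 rfl,
      fun e he => Finset.mem_product.2 ⟨g4 e he, Finset.mem_univ _⟩⟩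
  let f : Fam v k → Σ j : ℕ, T (k + j) := fun K => ⟨K.1.card - k, K.1, hm K⟩
  have hf : Function.Injective f := fun K K' h =>
    Subtype.ext (congrArg (fun x : Σ j : ℕ, T (k + j) => x.2.1) h)
  have hs' : ((M * s : ℝ≥0) : ℝ≥0∞) ≤ 2⁻¹ := by
    have : ((1 / 2 : ℝ≥0) : ℝ≥0∞) = 2⁻¹ := by simp
    rw [← this]; exact_mod_cast hs
  calc _ = ∑' K : Fam v k, (fun x : Σ j : ℕ, T (k + j) => (s : ℝ≥0∞) ^ (k + x.1)) (f K) :=
        tsum_congr fun K => by simp only [f, Nat.add_sub_cancel' K.2.2]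
    _ ≤ ∑' x : Σ j : ℕ, T (k + j), (s : ℝ≥0∞) ^ (k + x.1) :=
        ENNReal.tsum_comp_le_tsum_of_injective hf _
    _ = ∑' j, ∑' _ : T (k + j), (s : ℝ≥0∞) ^ (k + j) := ENNReal.tsum_sigma' _
    _ ≤ ∑' j, ((M * s : ℝ≥0) : ℝ≥0∞) ^ k * 2⁻¹ ^ j := by
        refine ENNReal.tsum_le_tsum fun j => ?_
        rw [tsum_fintype, Finset.sum_const, Finset.card_univ, Fintype.card_coe, nsmul_eq_mul]
        have : ((T (k + j)).card : ℝ≥0∞) ≤ (M : ℝ≥0∞) ^ (k + j) := by exact_mod_cast hT (k + j)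
        calc _ ≤ (M : ℝ≥0∞) ^ (k + j) * (s : ℝ≥0∞) ^ (k + j) := by gcongr
          _ = ((M * s : ℝ≥0) : ℝ≥0∞) ^ k * ((M * s : ℝ≥0) : ℝ≥0∞) ^ j := by
              rw [← mul_pow, pow_add]; push_cast; rfl
          _ ≤ _ := by gcongr
    _ = _ := by
        rw [ENNReal.tsum_mul_left, ENNReal.tsum_geometric, ENNReal.one_sub_inv_two, inv_inv,
          mul_comm]
        push_cast; rfl

theorem line_up (hF : F.Finite) (hu : u ∈ F) (j : Fin d) :
    ∃ b ∈ F, (b, j) ∈ bd F ∧ ∀ l, l ≠ j → b l = u l := by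
  obtain ⟨b, hb, h⟩ := exists_max_image {b | b ∈ F ∧ ∀ l, l ≠ j → b l = u l} (· j)
    (hF.subset fun _ h => h.1) ⟨u, hu, fun _ _ => rfl⟩
  refine ⟨b, hb.1, fun h' => ?_, hb.2⟩
  have := h (hd (b, j)) ⟨h'.1 hb.1, fun l hl => by simp [hd_apply, hl, hb.2 l hl]⟩
  simp [hd_apply] at this

theorem line_dn (hF : F.Finite) (hu : u ∈ F) (j : Fin d) :
    ∃ b ∉ F, (b, j) ∈ bd F ∧ ∀ l, l ≠ j → b l = u l := by
  obtain ⟨b, hb, h⟩ := exists_min_image {b | b ∈ F ∧ ∀ l, l ≠ j → b l = u l} (· j)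
    (hF.subset fun _ h => h.1) ⟨u, hu, fun _ _ => rfl⟩
  have h1 : ∀ l, l ≠ j → (b - Pi.single j 1 : Zd d) l = u l := fun l hl => by
    simp [hl, hb.2 l hl]
  have h2 : b - Pi.single j 1 ∉ F := fun h' => by
    have := h _ ⟨h', h1⟩
    simp at this
  exact ⟨_, h2, fun h' => h2 (h'.2 (by simpa [hd] using hb.1)), h1⟩

/-- the edges of `K` inside the plane number `k` -/
def inK (o : Fin d) (K : Finset (Ed d)) (k : ℤ) : Finset (Ed d) :=
  K.filter fun e => e.2 ≠ o ∧ e.1 o = k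

theorem plane_ge (o : Fin d) (hF : F.Finite) {K : Finset (Ed d)} (hK : bd F ⊆ K) (hu : u ∈ F) :
    2 * (d - 1) ≤ (inK o K (u o)).card ∧ (3 ≤ d → ∀ v ∈ F, v ≠ u → v o = u o →
      2 * (d - 1) + 1 ≤ (inK o K (u o)).card) := by
  classical
  choose f f1 f2 f3 using line_up hF hu
  choose g g1 g2 g3 using line_dn hF hu
  let A : Finset (Ed d) := (Finset.univ.erase o).image (fun j => (f j, j)) ∪
    (Finset.univ.erase o).image fun j => (g j, j)
  have hA : A.card = 2 * (d - 1) := by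
    rw [Finset.card_union_of_disjoint, Finset.card_image_of_injective _ fun _ _ h => congrArg Prod.snd h,
      Finset.card_image_of_injective _ fun _ _ h => congrArg Prod.snd h,
      Finset.card_erase_of_mem (Finset.mem_univ _), Finset.card_univ, Fintype.card_fin, two_mul]
    simp only [Finset.disjoint_left, Finset.mem_image]
    rintro _ ⟨j, -, rfl⟩ ⟨l, -, h⟩
    have e : g l = f j := congrArg Prod.fst h
    exact g1 l (e ▸ f1 j)
  have hA' : ∀ e ∈ A, e ∈ bd F ∧ e.2 ≠ o ∧ ∀ l, l ≠ e.2 → e.1 l = u l := by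
    simp only [A, Finset.mem_union, Finset.mem_image, Finset.mem_erase]
    rintro _ (⟨j, hj, rfl⟩ | ⟨j, hj, rfl⟩)
    exacts [⟨f2 j, hj.1, f3 j⟩, ⟨g2 j, hj.1, g3 j⟩]
  have hs : A ⊆ inK o K (u o) := fun e he => Finset.mem_filter.2
    ⟨hK (hA' e he).1, (hA' e he).2.1, (hA' e he).2.2 o (hA' e he).2.1.symm⟩
  refine ⟨hA ▸ Finset.card_le_card hs, fun h3 v hv hne ho => ?_⟩
  obtain ⟨i, hi⟩ := Function.ne_iff.1 hne
  obtain ⟨j, hj⟩ : ∃ j : Fin d, j ∉ ({o, i} : Finset (Fin d)) := by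
    by_contra h
    have := (Finset.card_le_card (fun j _ => not_not.1 (not_exists.1 h j) :
      Finset.univ ⊆ ({o, i} : Finset (Fin d)))).trans Finset.card_le_two
    simp at this; omega
  simp only [Finset.mem_insert, Finset.mem_singleton, not_or] at hj
  obtain ⟨b, -, b2, b3⟩ := line_up hF hv j
  have hb : (b, j) ∉ A := fun h => hi ((b3 i (Ne.symm hj.2)).symm.trans ((hA' _ h).2.2 i (Ne.symm hj.2)))
  rw [← hA, ← Finset.card_insert_of_notMem hb]
  exact Finset.card_le_card (Finset.insert_subset (Finset.mem_filter.2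
    ⟨hK b2, hj.1, (b3 o (Ne.symm hj.1)).trans ho⟩) hs)

theorem cross (o : Fin d) {k : ℤ} (h : b ∈ cl σ a) (ha : a o ≤ k) (hb : k < b o) :
    ∃ e ∈ σ, e.2 = o ∧ e.1 o = k ∧ e.1 ∈ cl σ a := by
  obtain ⟨e, he, u, w, h1, h2, h3, h4⟩ := exit (S := {u | u o ≤ k}) h ha (not_le.2 hb)
  have := hd_apply e o
  simp only [mem_ofPred_eq] at h3 h4
  rcases h1 with ⟨rfl, rfl⟩ | ⟨rfl, rfl⟩ <;> split_ifs at this with h5 <;> try omega
  exact ⟨e, he, h5.symm, by omega, cl_mono inter_subset_left _ h2⟩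

theorem meet (o : Fin d) {k : ℤ} (h : b ∈ cl σ a) (ha : a o ≤ k) (hb : k ≤ b o) :
    ∃ u ∈ cl σ a, u o = k := by
  rcases hb.eq_or_lt with hb | hb
  · exact ⟨b, h, hb.symm⟩
  · obtain ⟨e, -, -, h1, h2⟩ := cross o h ha hb
    exact ⟨_, h2, h1⟩

theorem starConn_of {Γ : Finset (Zd d)}
    (h : ∀ y ∈ Γ, ReflTransGen (fun a b => a ∈ Γ ∧ b ∈ Γ ∧ zd a b ≤ 1) v y) : StarConn Γ := by
  have : ∀ y, ReflTransGen (fun a b => a ∈ Γ ∧ b ∈ Γ ∧ zd a b ≤ 1) v y →
      ReflTransGen (fun a b => a ∈ Γ ∧ b ∈ Γ ∧ zd a b ≤ 1) y v := by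
    intro y hy
    induction hy with
    | refl => exact .refl
    | tail _ h2 ih => exact .head ⟨h2.2.1, h2.1, zd_comm _ _ ▸ h2.2.2⟩ ih
  exact fun x hx y hy => (this x (h x hx)).trans (h y hy)

theorem rooted_of (hd2 : 2 ≤ d) (o : Fin d) (hF : F.Finite) (hc : Con F) (hv : v ∈ F)
    {K Q : Finset (Ed d)} (hK : bd F ⊆ K) (hQ : Q.card ≤ d * 3 ^ d * K.card)
    (h : ∀ e ∈ K ∪ Q, ∃ e₀ ∈ K ∪ Q, ReflTransGen (Nr ↑(K ∪ Q)) e₀ e ∧ e₀.1 ∈ F ∧
      ∀ l, l ≠ o → e₀.1 l = v l) : Rooted v K := by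
  classical
  let I : Finset ℤ := hF.toFinset.image (· o)
  let Γ : Finset (Zd d) := I.image (Function.update v o) ∪ (K ∪ Q).image Prod.fst
  have hI : I ⊆ K.image (·.1 o) := by
    intro k hk
    obtain ⟨u, hu, rfl⟩ := Finset.mem_image.1 hk
    obtain ⟨e, he⟩ := Finset.card_pos.1
      (lt_of_lt_of_le (by omega) (plane_ge o hF hK (hF.mem_toFinset.1 hu)).1)
    exact Finset.mem_image.2 ⟨e, (Finset.mem_filter.1 he).1, (Finset.mem_filter.1 he).2.2⟩
  have mI : ∀ u ∈ F, Function.update v o (u o) ∈ Γ := fun u hu => Finset.mem_union_left _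
    (Finset.mem_image_of_mem _ (Finset.mem_image_of_mem _ (hF.mem_toFinset.2 hu)))
  have ax : ∀ u ∈ F, ReflTransGen (fun a b => a ∈ Γ ∧ b ∈ Γ ∧ zd a b ≤ 1) v
      (Function.update v o (u o)) := by
    intro u hu
    have h1 := HULL.line (X := (Γ : Set (Zd d))) v o (v o) (u o) fun t t1 t2 => by
      rcases le_total (v o) (u o) with h | h
      · obtain ⟨w, hw, rfl⟩ := meet o (k := t) (hc v hv u hu) (by omega) (by omega)
        exact mI w (cl_ins_sub hv Subset.rfl hw)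
      · obtain ⟨w, hw, rfl⟩ := meet o (k := t) (hc u hu v hv) (by omega) (by omega)
        exact mI w (cl_ins_sub hu Subset.rfl hw)
    rw [Function.update_eq_self] at h1
    generalize Function.update v o (u o) = y at h1
    obtain ⟨h2, h3⟩ := h1
    induction h3 with
    | refl => exact .refl
    | tail h4 h5 ih => exact ih.tail ⟨HULL.jright ⟨h2, h4⟩, h5.1, (zd_adj h5.2).le⟩
  have mK : ∀ e ∈ K ∪ Q, e.1 ∈ Γ := fun e he =>
    Finset.mem_union_right _ (Finset.mem_image_of_mem _ he)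
  refine ⟨Γ, starConn_of (v := v) fun y hy => ?_, by simpa using mI v hv, ?_,
    fun e he => mK e (Finset.mem_union_left _ he)⟩
  · rcases Finset.mem_union.1 hy with hy | hy
    · obtain ⟨k, hk, rfl⟩ := Finset.mem_image.1 hy
      obtain ⟨u, hu, rfl⟩ := Finset.mem_image.1 hk
      exact ax u (hF.mem_toFinset.1 hu)
    · obtain ⟨e, he, rfl⟩ := Finset.mem_image.1 hy
      obtain ⟨e₀, -, h1, h2, h3⟩ := h e he
      have e1 : Function.update v o (e₀.1 o) = e₀.1 := by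
        funext l
        by_cases hl : l = o
        · subst hl; simp
        · simp [hl, h3 l hl]
      have h4 := ax _ h2
      rw [e1] at h4
      exact h4.trans (ReflTransGen.lift (r := Nr ↑(K ∪ Q)) Prod.fst
        (fun _ _ h => And.intro (mK _ h.1) ⟨mK _ h.2.1, h.2.2⟩) _ _ h1)
  · have a1 := Finset.card_union_le (I.image (Function.update v o)) ((K ∪ Q).image Prod.fst)
    have a2 := (Finset.card_image_le (s := I) (f := Function.update v o)).trans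
      ((Finset.card_le_card hI).trans Finset.card_image_le)
    have a3 := (Finset.card_image_le (s := K ∪ Q) (f := Prod.fst)).trans (Finset.card_union_le _ _)
    calc Γ.card ≤ K.card + (K.card + d * 3 ^ d * K.card) := by simp only [Γ]; omega
      _ = _ := by ring

theorem bd_finite (hF : F.Finite) : (bd F).Finite := (touch_finite hF).subset fun _ h =>
  let ⟨_, _, h1, h2, _⟩ := ends_of_bd h; h1.touch h2

/-- every edge of the outer boundary is star-joined to a boundary edge on a given line -/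
theorem bd_line (hd2 : 2 ≤ d) (o : Fin d) (hC : C.Finite) (hc : Con C) (hv : v ∈ C) {e : Ed d}
    (he : e ∈ bd (fill C)) : ∃ e₀ ∈ bd (fill C), ReflTransGen (Nr (bd (fill C))) e₀ e ∧
      e₀.1 ∈ fill C ∧ ∀ l, l ≠ o → e₀.1 l = v l := by
  obtain ⟨b, b1, b2, b3⟩ := line_up (fill_finite hd2 hC) (subset_fill C hv) o
  exact ⟨_, b2, bd_star (con_fill hc ⟨v, hv⟩) (con_fill_compl hd2 hC) b2 he, b1, b3⟩

theorem fam_bd (hd2 : 2 ≤ d) (hC : C.Finite) (hc : Con C) (hv : v ∈ C) :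
    ∃ K : Fam v 2, (K.1 : Set (Ed d)) = bd (fill C) := by
  have hF := fill_finite hd2 hC
  have e := (bd_finite hF).coe_toFinset
  let o : Fin d := ⟨0, by omega⟩
  refine ⟨⟨_, rooted_of hd2 o hF (con_fill hc ⟨v, hv⟩) (subset_fill C hv) (Q := ∅) e.ge
    (by simp) fun e he => ?_, ?_⟩, e⟩
  · simpa using bd_line hd2 o hC hc hv (e := e) (by simpa using he)
  · exact le_trans (by omega) (((plane_ge o hF e.ge (subset_fill C hv)).1).trans
      (Finset.card_filter_le _ _))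

theorem fam_inf {B : Set (Ed d)} (hB : B.Infinite) {e₀ : Ed d} (h0 : e₀ ∈ B)
    (h : ∀ e ∈ B, ReflTransGen (Nr B) e₀ e) (m : ℕ) : ∃ K : Fam e₀.1 m, ↑K.1 ⊆ B := by
  classical
  have mono : ∀ {K K' : Finset (Ed d)}, K ⊆ K' → ∀ f, ReflTransGen (Nr ↑K) e₀ f →
      ReflTransGen (Nr ↑K') e₀ f := fun hK _ hf =>
    ReflTransGen.mono (fun _ _ h => ⟨hK h.1, hK h.2.1, h.2.2⟩) _ _ hf
  have path : ∀ e, ReflTransGen (Nr B) e₀ e → ∃ K : Finset (Ed d), ↑K ⊆ B ∧ e ∈ K ∧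
      ∀ f ∈ K, ReflTransGen (Nr ↑K) e₀ f := by
    intro e he
    induction he with
    | refl => exact ⟨{e₀}, by simpa, by simp, fun f hf => Finset.mem_singleton.1 hf ▸ .refl⟩
    | @tail x y _ h2 ih =>
      obtain ⟨K, k1, k2, k3⟩ := ih
      refine ⟨insert y K, by simpa [insert_subset_iff] using ⟨h2.2.1, k1⟩, by simp, fun f hf => ?_⟩
      rcases Finset.mem_insert.1 hf with rfl | hf
      · exact (mono (Finset.subset_insert _ _) _ (k3 x k2)).tail ⟨by simp [k2], by simp, h2.2.2⟩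
      · exact mono (Finset.subset_insert _ _) _ (k3 f hf)
  have grow : ∃ K : Finset (Ed d), ↑K ⊆ B ∧ e₀ ∈ K ∧ m ≤ K.card ∧
      ∀ f ∈ K, ReflTransGen (Nr ↑K) e₀ f := by
    induction m with
    | zero =>
      obtain ⟨K, k1, k2, k3⟩ := path e₀ .refl
      exact ⟨K, k1, k2, Nat.zero_le _, k3⟩
    | succ m ih =>
      obtain ⟨K, k1, k2, k3, k4⟩ := ih
      obtain ⟨e, e1, e2⟩ := hB.exists_notMem_finset K
      obtain ⟨K', j1, j2, j3⟩ := path e (h e e1)
      refine ⟨K ∪ K', by simpa using ⟨k1, j1⟩, by simp [k2], ?_, fun f hf => ?_⟩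
      · exact Nat.succ_le_of_lt (k3.trans_lt (Finset.card_lt_card
          ⟨Finset.subset_union_left, fun h => e2 (h (by simp [j2]))⟩))
      · rcases Finset.mem_union.1 hf with hf | hf
        exacts [mono Finset.subset_union_left _ (k4 f hf), mono Finset.subset_union_right _ (j3 f hf)]
  obtain ⟨K, k1, k2, k3, k4⟩ := grow
  refine ⟨⟨K, ⟨K.image Prod.fst, starConn_of (v := e₀.1) fun y hy => ?_,
    Finset.mem_image_of_mem _ k2, Finset.card_image_le.trans (Nat.le_mul_of_pos_left _ (by omega)),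
    fun e he => Finset.mem_image_of_mem _ he⟩, k3⟩, k1⟩
  obtain ⟨e, he, rfl⟩ := Finset.mem_image.1 hy
  exact (k4 e he).lift Prod.fst fun _ _ h =>
    ⟨Finset.mem_image_of_mem _ h.1, Finset.mem_image_of_mem _ h.2.1, h.2.2⟩

/-- two different infinite clusters are separated by arbitrarily large rooted closed sets -/
theorem two_inf (hd2 : 2 ≤ d) (ha : (cl σ a).Infinite) (hb : (cl σ b).Infinite)
    (h : b ∉ cl σ a) : ∃ v : Zd d, ∀ m, ∃ K : Fam v m, ∀ e ∈ K.1, e ∉ σ := by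
  set O := cl (ins (cl σ a)ᶜ) b
  have h1 : O ⊆ (cl σ a)ᶜ := cl_ins_sub h Subset.rfl
  have h2 : cl σ b ⊆ O := cl_subset (self_mem _ _) fun e he u w h3 _ hu =>
    cl_step hu (h3.ins.2 ⟨h1 hu, fun hw => h1 hu (cl_step hw he h3.symm)⟩) h3
  have h3 : Con Oᶜ := con_of_comp (con_cl σ a) ⟨a, self_mem _ _⟩ (subset_compl_comm.1 h1)
    fun u hu w hw hw' => hu (cl_trans hw' (cl_symm hw))
  have h4 : (bd O).Infinite := fun h => (finite_or hd2 h).elim (fun h => hb (h.subset h2))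
    fun h => ha (h.subset (subset_compl_comm.1 h1))
  obtain ⟨e₀, h0⟩ := h4.nonempty
  refine ⟨e₀.1, fun m => ?_⟩
  obtain ⟨K, hK⟩ := fam_inf h4 h0 (fun e he => bd_star (con_cl _ _) h3 h0 he) m
  refine ⟨K, fun e he hs => ?_⟩
  obtain ⟨u, w, h5, hu, hw⟩ := ends_of_bd (hK he)
  exact hw (cl_step hu (h5.ins.2 ⟨h1 hu, fun hw => h1 hu (cl_step hw hs h5.symm)⟩) h5)

end Pool.Agent.Lib.FP
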